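import Mathlib
import Pool.Agent.TH204.CP.Collatz3
import Pool.Agent.TH204.CP.Count

/-! Sets which at every scale are squeezed between locally constant sets of the same density:
their distribution along sums with primes. -/

set_option autoImplicit false

namespace Pool.Agent.TH465.HP
open Finset Filter Topology Pool.Agent.TH204.CP

/-- At every scale `N` the set `W N` is squeezed between locally constant sets of density `δ`. -/
def App (W : ℕ → ℤ → Prop) (δ : ℝ) : Prop := ∀ η : ℝ, 0 < η → ∀ K : ℕ, ∀ᶠ N : ℕ in atTop,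
  ∃ (E : Finset ℤ) (L : ℕ) (P P' : ℤ → Prop), (E.card : ℝ) ≤ η * N ∧ Real.log N ^ K ≤ L ∧
    (L : ℝ) * Real.log N ≤ η * N ∧ LocE P E N L ∧ LocE P' E N L ∧
    (∀ x ∈ Icc (1 : ℤ) N, (P x → W N x) ∧ (W N x → P' x)) ∧
    ∀ m : ℕ, m ≤ N → |cnt P m - δ * m| ≤ η * N ∧ |cnt P' m - δ * m| ≤ η * N

lemma ind_nn (P : ℤ → Prop) (x : ℤ) : 0 ≤ ind P x := by
  unfold ind; split_ifs <;> norm_num

lemma pv_nn (z : ℤ) : 0 ≤ pv z := by
  unfold pv; split_ifs <;> norm_num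

lemma ind_mono {P Q : ℤ → Prop} {x : ℤ} (h : P x → Q x) : ind P x ≤ ind Q x := by
  unfold ind
  by_cases h1 : P x
  · rw [if_pos h1, if_pos (h h1)]
  · rw [if_neg h1]
    split_ifs <;> norm_num

lemma ind_or {P Q R : ℤ → Prop} {x : ℤ} (h : P x → Q x ∨ R x) : ind P x ≤ ind Q x + ind R x := by
  have hq := ind_nn Q x
  have hr := ind_nn R x
  by_cases h1 : P x
  · rcases h h1 with h2 | h2
    · have : ind Q x = 1 := by unfold ind; rw [if_pos h2]
      have : ind P x = 1 := by unfold ind; rw [if_pos h1]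
      linarith
    · have : ind R x = 1 := by unfold ind; rw [if_pos h2]
      have : ind P x = 1 := by unfold ind; rw [if_pos h1]
      linarith
  · have : ind P x = 0 := by unfold ind; rw [if_neg h1]
    linarith

lemma cnt_mono' {P Q : ℤ → Prop} {N : ℕ} (h : ∀ x ∈ Icc (1 : ℤ) N, P x → Q x) : cnt P N ≤ cnt Q N := by
  unfold cnt
  exact sum_le_sum fun x hx => ind_mono (h x hx)

lemma cnt_or' {P Q R : ℤ → Prop} {N : ℕ} (h : ∀ x ∈ Icc (1 : ℤ) N, P x → Q x ∨ R x) :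
    cnt P N ≤ cnt Q N + cnt R N := by
  unfold cnt
  rw [← sum_add_distrib]
  exact sum_le_sum fun x hx => ind_or (h x hx)

lemma QD_mono {P Q : ℤ → Prop} {b : ℤ} {N : ℕ} (h : ∀ x ∈ Icc (1 : ℤ) N, P x → Q x) :
    QD P b N ≤ QD Q b N := by
  unfold QD
  exact sum_le_sum fun x hx => mul_le_mul_of_nonneg_right (ind_mono (h x hx)) (pv_nn _)

lemma QS_mono {P Q : ℤ → Prop} {n : ℤ} {N : ℕ} (h : ∀ x ∈ Icc (1 : ℤ) N, P x → Q x) :
    QS P n N ≤ QS Q n N := by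
  unfold QS
  exact sum_le_sum fun x hx => mul_le_mul_of_nonneg_right (ind_mono (h x hx)) (pv_nn _)

lemma TT3_mono {P Q : ℤ → Prop} {n : ℕ} (h : ∀ x ∈ Icc (1 : ℤ) n, P x → Q x) :
    TT3 P n ≤ TT3 Q n := by
  unfold TT3
  refine sum_le_sum fun m hm => mul_le_mul_of_nonneg_left (QS_mono fun x hx => h x ?_) (pv_nn _)
  rw [mem_Icc] at hm hx ⊢
  omega

/-- TERNARY SUMS -/
theorem App.tern {W : ℕ → ℤ → Prop} {δ : ℝ} (hW : App W δ) (ε : ℝ) (hε : 0 < ε) : ∀ᶠ n : ℕ in atTop,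
    |TT3 (W (2 * n)) n * Real.log n ^ 2 - δ * n ^ 2 / 2| ≤ ε * n ^ 2 := by
  obtain ⟨K, η, hη0, h⟩ := ternary ε hε
  set η' : ℝ := min (η / 2) (η ^ 2 / 2) with hη'
  have hη'0 : 0 < η' := lt_min (by positivity) (by positivity)
  have ht : Tendsto (fun N : ℕ => 2 * N) atTop atTop :=
    tendsto_id.const_mul_atTop' (by norm_num)
  filter_upwards [h, ht.eventually (hW η' hη'0 K), eventually_ge_atTop 1] with N h1 h2 hN1
  obtain ⟨E, L, P, P', hE, hL1, hL2, hloc, hloc', hsq, hden⟩ := h2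
  have hNr : (1 : ℝ) ≤ N := by exact_mod_cast hN1
  have hlog : Real.log (N : ℝ) ≤ Real.log ((2 * N : ℕ) : ℝ) := by
    apply Real.log_le_log (by linarith)
    push_cast; linarith
  have hlog0 : 0 ≤ Real.log (N : ℝ) := Real.log_natCast_nonneg N
  have e2 : η' * ((2 * N : ℕ) : ℝ) ≤ η * N := by
    push_cast
    have := min_le_left (η / 2) (η ^ 2 / 2)
    calc η' * (2 * (N : ℝ)) ≤ (η / 2) * (2 * N) := by gcongr
      _ = _ := by ring
  have e3 : η' * ((2 * N : ℕ) : ℝ) ≤ η * (η * N) := by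
    push_cast
    have := min_le_right (η / 2) (η ^ 2 / 2)
    calc η' * (2 * (N : ℝ)) ≤ (η ^ 2 / 2) * (2 * N) := by gcongr
      _ = _ := by ring
  have key : ∀ Q : ℤ → Prop, LocE Q E (2 * N) L → (∀ m : ℕ, m ≤ 2 * N → |cnt Q m - δ * m| ≤ η' * ((2 * N : ℕ) : ℝ)) →
      |TT3 Q N * Real.log N ^ 2 - δ * N ^ 2 / 2| ≤ ε * N ^ 2 := by
    intro Q hQ hQd
    refine h1 L ((pow_le_pow_left₀ hlog0 hlog K).trans hL1)
      ((mul_le_mul_of_nonneg_left hlog (Nat.cast_nonneg _)).trans (hL2.trans e2)) Q E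
      (hE.trans e2) hQ δ ?_
    intro M hM1 hM2
    refine (hQd M hM2).trans (e3.trans ?_)
    exact mul_le_mul_of_nonneg_left hM1 hη0.le
  have g1 := abs_le.1 (key P hloc fun m hm => (hden m hm).1)
  have g2 := abs_le.1 (key P' hloc' fun m hm => (hden m hm).2)
  have m1 : TT3 P N ≤ TT3 (W (2 * N)) N := TT3_mono fun x hx => (hsq x (by
    rw [mem_Icc] at hx ⊢; push_cast; omega)).1
  have m2 : TT3 (W (2 * N)) N ≤ TT3 P' N := TT3_mono fun x hx => (hsq x (by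
    rw [mem_Icc] at hx ⊢; push_cast; omega)).2
  have hs : 0 ≤ Real.log (N : ℝ) ^ 2 := by positivity
  have k1 := mul_le_mul_of_nonneg_right m1 hs
  have k2 := mul_le_mul_of_nonneg_right m2 hs
  rw [abs_le]
  constructor <;> linarith [g1.1, g1.2, g2.1, g2.2]

lemma union_small {X X' : Finset ℕ} {N C : ℕ} (h : (X.card : ℝ) * Real.log N ^ (C + 1) ≤ N)
    (h' : (X'.card : ℝ) * Real.log N ^ (C + 1) ≤ N) (hl : 2 ≤ Real.log (N : ℝ)) :
    ((X ∪ X').card : ℝ) * Real.log N ^ C ≤ N := by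
  have h1 : ((X ∪ X').card : ℝ) ≤ X.card + X'.card := by exact_mod_cast card_union_le _ _
  have h2 : 0 ≤ Real.log (N : ℝ) ^ C := by positivity
  have h3 : ((X ∪ X').card : ℝ) * Real.log N ^ C ≤ (X.card + X'.card) * Real.log N ^ C :=
    mul_le_mul_of_nonneg_right h1 h2
  rw [pow_succ] at h h'
  have h4 : ((X.card : ℝ) + X'.card) * Real.log N ^ C * 2 ≤ ((X.card : ℝ) + X'.card) * Real.log N ^ C * Real.log N :=
    mul_le_mul_of_nonneg_left hl (by positivity)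
  nlinarith

/-- DIFFERENCES `p - b` -/
theorem App.diff {W : ℕ → ℤ → Prop} {δ : ℝ} (hW : App W δ) (C : ℕ) (ε : ℝ) (hε : 0 < ε) :
    ∀ᶠ N : ℕ in atTop, ∃ X : Finset ℕ, X ⊆ Icc 1 N ∧ (X.card : ℝ) * Real.log N ^ C ≤ N ∧
      ∀ b ∈ Icc 1 N, b ∉ X → |QD (W N) b N * Real.log N - δ * N| ≤ ε * N := by
  obtain ⟨K, η, hη0, h⟩ := core3 (C + 1) (ε / 2) (by positivity)
  filter_upwards [h, hW (min η (ε / 2)) (lt_min hη0 (by positivity)) K,
    tlog.eventually_ge_atTop 2] with N h1 h2 hl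
  obtain ⟨E, L, P, P', hE, hL1, hL2, hloc, hloc', hsq, hden⟩ := h2
  have hN0 : (0 : ℝ) ≤ N := Nat.cast_nonneg _
  have hm1 : min η (ε / 2) * (N : ℝ) ≤ η * N := mul_le_mul_of_nonneg_right (min_le_left _ _) hN0
  have hm2 : min η (ε / 2) * (N : ℝ) ≤ ε / 2 * N := mul_le_mul_of_nonneg_right (min_le_right _ _) hN0
  obtain ⟨⟨X, hX1, hX2, hX3⟩, _⟩ := h1 L hL1 (hL2.trans hm1) P E (hE.trans hm1) hloc
  obtain ⟨⟨X', hX1', hX2', hX3'⟩, _⟩ := h1 L hL1 (hL2.trans hm1) P' E (hE.trans hm1) hloc'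
  refine ⟨X ∪ X', union_subset hX1 hX1', union_small hX2 hX2' hl, fun b hb hbX => ?_⟩
  rw [mem_union, not_or] at hbX
  have g1 := abs_le.1 (hX3 b hb hbX.1)
  have g1' := abs_le.1 (hX3' b hb hbX.2)
  have g2 := abs_le.1 ((hden N le_rfl).1.trans hm2)
  have g2' := abs_le.1 ((hden N le_rfl).2.trans hm2)
  have m1 : QD P b N ≤ QD (W N) b N := QD_mono fun x hx => (hsq x hx).1
  have m2 : QD (W N) b N ≤ QD P' b N := QD_mono fun x hx => (hsq x hx).2
  have hs : 0 ≤ Real.log (N : ℝ) := by linarith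
  have k1 := mul_le_mul_of_nonneg_right m1 hs
  have k2 := mul_le_mul_of_nonneg_right m2 hs
  rw [abs_le]
  constructor <;> linarith [g1.1, g1.2, g1'.1, g1'.2, g2.1, g2.2, g2'.1, g2'.2]

/-- SUMS `n = p + x` -/
theorem App.sum {W : ℕ → ℤ → Prop} {δ : ℝ} (hW : App W δ) (C : ℕ) (ε : ℝ) (hε : 0 < ε) :
    ∀ᶠ N : ℕ in atTop, ∃ X : Finset ℕ, X ⊆ Ioc N (2 * N) ∧ (X.card : ℝ) * Real.log N ^ C ≤ N ∧
      ∀ n ∈ Ioc N (2 * N), n ∉ X → |QS (W (2 * N)) n n * Real.log n - δ * n| ≤ ε * n := by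
  obtain ⟨K, η, hη0, h⟩ := sums (C + 1) ε hε
  have ht : Tendsto (fun N : ℕ => 2 * N) atTop atTop :=
    tendsto_id.const_mul_atTop' (by norm_num)
  filter_upwards [h, ht.eventually (hW (η / 2) (by positivity) K), tlog.eventually_ge_atTop 2,
    eventually_ge_atTop 1] with N h1 h2 hl hN1
  obtain ⟨E, L, P, P', hE, hL1, hL2, hloc, hloc', hsq, hden⟩ := h2
  have hNr : (1 : ℝ) ≤ N := by exact_mod_cast hN1
  have hlog : Real.log (N : ℝ) ≤ Real.log ((2 * N : ℕ) : ℝ) := by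
    apply Real.log_le_log (by linarith)
    push_cast; linarith
  have hlog0 : 0 ≤ Real.log (N : ℝ) := Real.log_natCast_nonneg N
  have e2 : η / 2 * ((2 * N : ℕ) : ℝ) = η * N := by push_cast; ring
  rw [e2] at hE hL2
  have key : ∀ Q : ℤ → Prop, LocE Q E (2 * N) L → (∀ m : ℕ, m ≤ 2 * N → |cnt Q m - δ * m| ≤ η / 2 * ((2 * N : ℕ) : ℝ)) →
      ∃ X : Finset ℕ, X ⊆ Ioc N (2 * N) ∧ (X.card : ℝ) * Real.log N ^ (C + 1) ≤ N ∧
      ∀ n ∈ Ioc N (2 * N), n ∉ X → |QS Q n n * Real.log n - δ * n| ≤ ε * n := by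
    intro Q hQ hQd
    refine h1 L ((pow_le_pow_left₀ hlog0 hlog K).trans hL1)
      ((mul_le_mul_of_nonneg_left hlog (Nat.cast_nonneg _)).trans hL2) Q E hE hQ δ ?_
    intro M hM1 hM2
    refine (hQd M hM2).trans ?_
    rw [e2]
    apply mul_le_mul_of_nonneg_left _ hη0.le
    exact_mod_cast hM1
  obtain ⟨X, hX1, hX2, hX3⟩ := key P hloc fun m hm => (hden m hm).1
  obtain ⟨X', hX1', hX2', hX3'⟩ := key P' hloc' fun m hm => (hden m hm).2
  refine ⟨X ∪ X', union_subset hX1 hX1', union_small hX2 hX2' hl, fun n hn hnX => ?_⟩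
  rw [mem_union, not_or] at hnX
  have g1 := abs_le.1 (hX3 n hn hnX.1)
  have g2 := abs_le.1 (hX3' n hn hnX.2)
  rw [mem_Ioc] at hn
  have m1 : QS P n n ≤ QS (W (2 * N)) n n := QS_mono fun x hx => (hsq x (by
    rw [mem_Icc] at hx ⊢; push_cast; omega)).1
  have m2 : QS (W (2 * N)) n n ≤ QS P' n n := QS_mono fun x hx => (hsq x (by
    rw [mem_Icc] at hx ⊢; push_cast; omega)).2
  have hs : 0 ≤ Real.log (n : ℝ) := Real.log_natCast_nonneg n
  have k1 := mul_le_mul_of_nonneg_right m1 hs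
  have k2 := mul_le_mul_of_nonneg_right m2 hs
  rw [abs_le]
  constructor <;> linarith [g1.1, g1.2, g2.1, g2.2]

end Pool.Agent.TH465.HP
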