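import Mathlib

/-! Elementary bounds for counts and truncated sums over finite sets. -/

set_option autoImplicit false

namespace Pool.Agent.TH465.HP
open Finset

open Classical in
lemma law_close {α : Type*} (F B : Finset α) (v : α → ℕ) (hB : ∀ z ∈ F, z ∉ B → Odd (v z) ∧ 3 ≤ v z)
    (Lev W : ℕ → Prop) (h : ∀ m, Odd m → 3 ≤ m → (Lev m ↔ W m)) :
    |((F.filter (fun z => Odd (v z) ∧ Lev (v z))).card : ℝ) - (F.filter (fun z => W (v z))).card| ≤ B.card := by
  have h1 : F.filter (fun z => Odd (v z) ∧ Lev (v z)) ⊆ F.filter (fun z => W (v z)) ∪ B := by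
    intro z hz
    rw [mem_filter] at hz
    rw [mem_union, mem_filter]
    by_cases hb : z ∈ B
    · exact Or.inr hb
    · obtain ⟨g1, g2⟩ := hB z hz.1 hb
      exact Or.inl ⟨hz.1, (h _ g1 g2).1 hz.2.2⟩
  have h2 : F.filter (fun z => W (v z)) ⊆ F.filter (fun z => Odd (v z) ∧ Lev (v z)) ∪ B := by
    intro z hz
    rw [mem_filter] at hz
    rw [mem_union, mem_filter]
    by_cases hb : z ∈ B
    · exact Or.inr hb
    · obtain ⟨g1, g2⟩ := hB z hz.1 hb
      exact Or.inl ⟨hz.1, g1, (h _ g1 g2).2 hz.2⟩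
  have k1 := (card_le_card h1).trans (card_union_le _ _)
  have k2 := (card_le_card h2).trans (card_union_le _ _)
  have k1' : ((F.filter (fun z => Odd (v z) ∧ Lev (v z))).card : ℝ) ≤ (F.filter (fun z => W (v z))).card + B.card := by
    exact_mod_cast k1
  have k2' : ((F.filter (fun z => W (v z))).card : ℝ) ≤ (F.filter (fun z => Odd (v z) ∧ Lev (v z))).card + B.card := by
    exact_mod_cast k2
  rw [abs_le]
  constructor <;> linarith

open Classical in
/-- bounds for the sum of a truncated function -/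
lemma trunc_bounds {α : Type*} (F F' B : Finset α) (hF : F' ⊆ F) (hB : ∀ z ∈ F, z ∉ B → z ∈ F')
    (f : α → ℝ) (P0 P1 P2 : α → Prop) {t a1 a2 : ℝ} (ht : 0 ≤ t) (ha1 : 0 ≤ a1) (ha2 : 0 ≤ a2)
    (hf0 : ∀ z ∈ F', 0 ≤ f z) (hft : ∀ z ∈ F', f z ≤ t)
    (h0 : ∀ z ∈ F', z ∉ B → ¬ P0 z → f z = t) (h10 : ∀ z, P1 z → P0 z)
    (h1 : ∀ z ∈ F', z ∉ B → P1 z → a1 ≤ f z) (h2 : ∀ z ∈ F', z ∉ B → P2 z → f z ≤ a2) :
    ∑ z ∈ F', f z ≤ t * ((F.card : ℝ) - (F.filter P2).card) + a2 * (F.filter P2).card + B.card * t ∧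
    t * ((F.card : ℝ) - (F.filter P0).card) + a1 * (F.filter P1).card - B.card * (t + a1) ≤ ∑ z ∈ F', f z := by
  set G : Finset α := F' \ B with hG
  have hGF' : G ⊆ F' := sdiff_subset
  have hGF : G ⊆ F := hGF'.trans hF
  have hFG : F \ G ⊆ B := by
    intro z hz
    rw [mem_sdiff, hG, mem_sdiff] at hz
    by_contra hb
    exact hz.2 ⟨hB z hz.1 hb, hb⟩
  have cFG : ((F \ G).card : ℝ) ≤ B.card := by exact_mod_cast card_le_card hFG
  have cF'G : ((F' \ G).card : ℝ) ≤ B.card := by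
    have : F' \ G ⊆ B := (sdiff_subset_sdiff hF (subset_refl _)).trans hFG
    exact_mod_cast card_le_card this
  have count : ∀ P : α → Prop, ∑ z ∈ F, (if P z then (1 : ℝ) else 0) = (F.filter P).card := by
    intro P
    rw [← sum_filter, sum_const, nsmul_eq_mul, mul_one]
  constructor
  · set g : α → ℝ := fun z => t * (1 - (if P2 z then (1 : ℝ) else 0)) + a2 * (if P2 z then (1 : ℝ) else 0) with hg
    have hg0 : ∀ z, 0 ≤ g z := by
      intro z
      rw [hg]
      by_cases h : P2 z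
      · simp only [h, if_true]; linarith
      · simp only [h, if_false]; linarith
    have e1 : ∑ z ∈ F', f z = ∑ z ∈ F' \ G, f z + ∑ z ∈ G, f z := (sum_sdiff hGF').symm
    have e2 : ∑ z ∈ F' \ G, f z ≤ B.card * t := by
      calc ∑ z ∈ F' \ G, f z ≤ ∑ z ∈ F' \ G, t := sum_le_sum fun z hz => hft z (mem_sdiff.1 hz).1
        _ = (F' \ G).card * t := by rw [sum_const, nsmul_eq_mul]
        _ ≤ _ := mul_le_mul_of_nonneg_right cF'G ht
    have e3 : ∑ z ∈ G, f z ≤ ∑ z ∈ G, g z := by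
      refine sum_le_sum fun z hz => ?_
      rw [hG, mem_sdiff] at hz
      rw [hg]
      by_cases h : P2 z
      · simp only [h, if_true]
        have := h2 z hz.1 hz.2 h
        linarith
      · simp only [h, if_false]
        have := hft z hz.1
        linarith
    have e4 : ∑ z ∈ G, g z ≤ ∑ z ∈ F, g z := sum_le_sum_of_subset_of_nonneg hGF fun z _ _ => hg0 z
    have e5 : ∑ z ∈ F, g z = t * ((F.card : ℝ) - (F.filter P2).card) + a2 * (F.filter P2).card := by
      rw [hg]
      simp only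
      rw [sum_add_distrib, ← mul_sum, ← mul_sum, sum_sub_distrib, count, sum_const, nsmul_eq_mul, mul_one]
    linarith
  · set g : α → ℝ := fun z => t * (1 - (if P0 z then (1 : ℝ) else 0)) + a1 * (if P1 z then (1 : ℝ) else 0) with hg
    have e1 : ∑ z ∈ F', f z = ∑ z ∈ F' \ G, f z + ∑ z ∈ G, f z := (sum_sdiff hGF').symm
    have e2 : 0 ≤ ∑ z ∈ F' \ G, f z := sum_nonneg fun z hz => hf0 z (mem_sdiff.1 hz).1
    have e3 : ∑ z ∈ G, g z ≤ ∑ z ∈ G, f z := by
      refine sum_le_sum fun z hz => ?_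
      rw [hG, mem_sdiff] at hz
      rw [hg]
      by_cases h : P1 z
      · have h' := h10 z h
        simp only [h, h', if_true]
        have := h1 z hz.1 hz.2 h
        linarith
      · by_cases h' : P0 z
        · simp only [h, h', if_true, if_false]
          have := hf0 z hz.1
          linarith
        · simp only [h, h', if_false]
          have := h0 z hz.1 hz.2 h'
          linarith
    have e4 : ∑ z ∈ F, g z = ∑ z ∈ F \ G, g z + ∑ z ∈ G, g z := (sum_sdiff hGF).symm
    have e5 : ∑ z ∈ F \ G, g z ≤ B.card * (t + a1) := by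
      calc ∑ z ∈ F \ G, g z ≤ ∑ z ∈ F \ G, (t + a1) := by
            refine sum_le_sum fun z _ => ?_
            rw [hg]
            by_cases h : P1 z
            · by_cases h' : P0 z
              · simp only [h, h', if_true]; linarith
              · simp only [h, h', if_true, if_false]; linarith
            · by_cases h' : P0 z
              · simp only [h, h', if_true, if_false]; linarith
              · simp only [h, h', if_false]; linarith
        _ = (F \ G).card * (t + a1) := by rw [sum_const, nsmul_eq_mul]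
        _ ≤ _ := mul_le_mul_of_nonneg_right cFG (by linarith)
    have e6 : ∑ z ∈ F, g z = t * ((F.card : ℝ) - (F.filter P0).card) + a1 * (F.filter P1).card := by
      rw [hg]
      simp only
      rw [sum_add_distrib, ← mul_sum, ← mul_sum, sum_sub_distrib, count, count, sum_const, nsmul_eq_mul, mul_one]
    linarith

/-- the asymptotic evaluation -/
lemma avg_bound {c Λ δ ε : ℝ} (hc : 0 < c) (hΛ : c < Λ) (hδ0 : 0 ≤ δ) (hδ1 : δ ≤ 1) (hε : 0 < ε) :
    ∃ κ : ℝ, 0 < κ ∧ κ < c ∧ ∀ L V A F T0 T1 T2 S e : ℝ, 1 / κ ≤ L → 0 ≤ V → 0 ≤ A →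
      |F * V - A| ≤ κ * A → |T0 * V - δ * A| ≤ κ * A → |T1 * V - δ * A| ≤ κ * A →
      |T2 * V - δ * A| ≤ κ * A → e * V ≤ κ * A →
      S ≤ Λ * L * (F - T2) + (c + κ) * (L + 1) * T2 + e * (Λ * L) →
      Λ * L * (F - T0) + (c - κ) * L * T1 - e * (Λ * L + (c - κ) * L) ≤ S →
      |S * V - (δ * c + (1 - δ) * Λ) * A * L| ≤ ε * A * L := by
  have hΛ0 : 0 < Λ := hc.trans hΛ
  set κ : ℝ := min (c / 2) (min 1 (ε / (4 * Λ + 4 * c + 8))) with hκ
  have hκ0 : 0 < κ := lt_min (by positivity) (lt_min one_pos (by positivity))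
  have hκc : κ ≤ c / 2 := min_le_left _ _
  have hκ1 : κ ≤ 1 := (min_le_right _ _).trans (min_le_left _ _)
  have hκε : κ * (4 * Λ + 4 * c + 8) ≤ ε := by
    have h1 : κ ≤ ε / (4 * Λ + 4 * c + 8) := (min_le_right _ _).trans (min_le_right _ _)
    rwa [le_div_iff₀ (by positivity)] at h1
  refine ⟨κ, hκ0, by linarith, ?_⟩
  intro L V A F T0 T1 T2 S e hL hV hA hF hT0 hT1 hT2 he hS1 hS2
  have hL1 : 1 ≤ κ * L := by
    rw [div_le_iff₀ hκ0] at hL
    linarith
  have hL0 : 0 < L := by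
    by_contra hcon
    push Not at hcon
    nlinarith
  rw [abs_le] at hF hT0 hT1 hT2
  have hAL : 0 ≤ A * L := by positivity
  have hU := mul_le_mul_of_nonneg_right hS1 hV
  have hLo := mul_le_mul_of_nonneg_right hS2 hV
  have hΛL : 0 ≤ Λ * L := by positivity
  have hck : 0 ≤ c - κ := by linarith
  rw [abs_le]
  constructor
  · -- lower bound
    have b1 : Λ * L * (F * V - T0 * V) ≥ Λ * L * ((1 - δ) * A - 2 * (κ * A)) :=
      mul_le_mul_of_nonneg_left (by linarith [hF.1, hT0.2]) hΛL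
    have b2 : (c - κ) * L * (T1 * V) ≥ (c - κ) * L * (δ * A - κ * A) :=
      mul_le_mul_of_nonneg_left (by linarith [hT1.1]) (by positivity)
    have b3 : (e * V) * (Λ * L + (c - κ) * L) ≤ (κ * A) * (Λ * L + (c - κ) * L) :=
      mul_le_mul_of_nonneg_right he (by positivity)
    have b4 : (Λ * L * (F - T0) + (c - κ) * L * T1 - e * (Λ * L + (c - κ) * L)) * V =
        Λ * L * (F * V - T0 * V) + (c - κ) * L * (T1 * V) - (e * V) * (Λ * L + (c - κ) * L) := by ring
    rw [b4] at hLo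
    have b5 : Λ * L * ((1 - δ) * A - 2 * (κ * A)) + (c - κ) * L * (δ * A - κ * A) -
        (κ * A) * (Λ * L + (c - κ) * L) = (δ * c + (1 - δ) * Λ) * A * L -
          (A * L) * (κ * (3 * Λ + 2 * (c - κ) + δ)) := by ring
    have b6 : (A * L) * (κ * (3 * Λ + 2 * (c - κ) + δ)) ≤ (A * L) * ε := by
      apply mul_le_mul_of_nonneg_left _ hAL
      refine le_trans ?_ hκε
      apply mul_le_mul_of_nonneg_left _ hκ0.le
      linarith
    linarith
  · have b1 : Λ * L * (F * V - T2 * V) ≤ Λ * L * ((1 - δ) * A + 2 * (κ * A)) :=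
      mul_le_mul_of_nonneg_left (by linarith [hF.2, hT2.1]) hΛL
    have b2 : (c + κ) * (L + 1) * (T2 * V) ≤ (c + κ) * (L + 1) * (δ * A + κ * A) :=
      mul_le_mul_of_nonneg_left (by linarith [hT2.2]) (by positivity)
    have b2' : (c + κ) * (L + 1) * (δ * A + κ * A) ≤ (c + κ) * (L + κ * L) * (δ * A + κ * A) := by
      apply mul_le_mul_of_nonneg_right _ (by positivity)
      apply mul_le_mul_of_nonneg_left _ (by positivity)
      linarith
    have b3 : (e * V) * (Λ * L) ≤ (κ * A) * (Λ * L) := mul_le_mul_of_nonneg_right he hΛL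
    have b4 : (Λ * L * (F - T2) + (c + κ) * (L + 1) * T2 + e * (Λ * L)) * V =
        Λ * L * (F * V - T2 * V) + (c + κ) * (L + 1) * (T2 * V) + (e * V) * (Λ * L) := by ring
    rw [b4] at hU
    have b5 : Λ * L * ((1 - δ) * A + 2 * (κ * A)) + (c + κ) * (L + κ * L) * (δ * A + κ * A) + (κ * A) * (Λ * L) =
        (δ * c + (1 - δ) * Λ) * A * L +
          (A * L) * (κ * (3 * Λ + (c + δ + c * δ) + κ * (1 + c + δ) + κ * κ)) := by ring
    have b6 : (A * L) * (κ * (3 * Λ + (c + δ + c * δ) + κ * (1 + c + δ) + κ * κ)) ≤ (A * L) * ε := by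
      apply mul_le_mul_of_nonneg_left _ hAL
      refine le_trans ?_ hκε
      apply mul_le_mul_of_nonneg_left _ hκ0.le
      have c1 : c * δ ≤ c := by nlinarith
      have c2 : κ * (1 + c + δ) ≤ 1 * (1 + c + δ) := mul_le_mul_of_nonneg_right hκ1 (by linarith)
      have c3 : κ * κ ≤ 1 := by nlinarith
      linarith
    linarith

end Pool.Agent.TH465.HP
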