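import Mathlib
import Pool.Agent.TH465.HP.App
import Pool.Agent.H499R2.HL.C

/-! The hitting time of 1 and the number of odd terms before it are locally constant. -/

set_option autoImplicit false

namespace Pool.Agent.TH465.HP
open Finset Filter Topology Pool.Agent.TH204.CP Pool.Agent.H499R2.CO Pool.Agent.W38.CR Pool.Agent.W38.AF
open Pool.Agent.H499R2.HL (H H_transfer)
open Pool.Agent.H499R2.LT (odn)
open Pool.Agent.H499R2.ND (Tn)

/-- a condition on the hitting time and the number of odd terms -/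
def Dat (R : ℕ → ℕ → Prop) (x : ℤ) : Prop := 0 < x ∧ ∃ k : ℕ, H k x.toNat ∧ R k (odn k x.toNat)

lemma F5 : ∀ᶠ N : ℕ in atTop, (6 * Real.exp (lam N)) ^ 2 < N := by
  filter_upwards [tlog.eventually (ev_sqrt 0 (2 ^ 20)), tlog.eventually_ge_atTop 16,
    tloglog.eventually_ge_atTop 1] with N h1 h2 h3
  set ℓ := Real.log (N : ℝ) with hℓ
  set u := Real.log ℓ with hu
  have hu0 : (0 : ℝ) < u := by linarith
  have hℓ0 : (0 : ℝ) < ℓ := by linarith
  have hNpos : (0 : ℝ) < N := by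
    by_contra hcon
    push Not at hcon
    have : (N : ℝ) = 0 := le_antisymm hcon (Nat.cast_nonneg _)
    rw [this, Real.log_zero] at hℓ
    linarith
  rw [pow_zero, mul_one] at h1
  have hs : √ ℓ * √ ℓ = ℓ := Real.mul_self_sqrt hℓ0.le
  have h6 : lam N ≤ ℓ / 8 := by
    unfold lam
    rw [← hℓ, ← hu]
    calc 2 ^ 17 * √ ℓ / u ^ 17 ≤ 2 ^ 17 * √ ℓ / 1 := by
          gcongr
          exact one_le_pow₀ h3
      _ ≤ ℓ / 8 := by nlinarith
  have h7 : Real.exp (lam N) ^ 2 = Real.exp (2 * lam N) := by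
    rw [← Real.exp_nat_mul]; norm_num
  have h8 : (36 : ℝ) < Real.exp 4 := by
    have h9 := Real.exp_one_gt_d9
    have h10 : Real.exp 4 = Real.exp 1 ^ 4 := by rw [← Real.exp_nat_mul]; norm_num
    rw [h10]
    calc (36 : ℝ) < 2.7 ^ 4 := by norm_num
      _ ≤ Real.exp 1 ^ 4 := pow_le_pow_left₀ (by norm_num) (by linarith) 4
  calc (6 * Real.exp (lam N)) ^ 2 = 36 * Real.exp (2 * lam N) := by rw [mul_pow, h7]; norm_num
    _ < Real.exp 4 * Real.exp (2 * lam N) := by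
        exact mul_lt_mul_of_pos_right h8 (Real.exp_pos _)
    _ = Real.exp (4 + 2 * lam N) := by rw [Real.exp_add]
    _ ≤ Real.exp ℓ := Real.exp_le_exp.2 (by linarith)
    _ = N := by rw [hℓ, Real.exp_log hNpos]

/-- local constancy of the data at the scale `L` -/
theorem locH (η : ℝ) (hη : 0 < η) : ∀ᶠ N : ℕ in atTop,
    ∃ E : Finset ℤ, (E.card : ℝ) ≤ η * N ∧ ∀ L : ℕ, (L : ℝ) ≤ 2 * Real.exp (lam N) →
      ∀ R : ℕ → ℕ → Prop, LocE (Dat R) E N L := by
  filter_upwards [exc (s := 1) (Or.inl rfl) η hη, F1, F3 0, F5] with N h1 h2 h3 h4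
  obtain ⟨E, hE1, hE2⟩ := h1
  refine ⟨E, hE1, fun L hL R n hn hnE h hh => ?_⟩
  rw [mem_Icc] at hn hh
  obtain ⟨m, rfl⟩ : ∃ m : ℕ, n = m := ⟨n.toNat, by omega⟩
  obtain ⟨j, rfl⟩ : ∃ j : ℕ, h = j := ⟨h.toNat, by omega⟩
  obtain ⟨g1, g2⟩ := hE2 m (by omega) (by omega) hnE
  have g3 := h2 m g1 (by omega)
  have hlam0 : 0 ≤ lam N := lam_nonneg h3
  obtain ⟨t, ht, g4, _⟩ := half 1 N m g3 hlam0 g2
  have hj : (j : ℝ) ≤ 3 * L := by
    have : j ≤ 3 * L := by omega
    exact_mod_cast this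
  have g5 := g4 (((m + j : ℕ) : ℤ)) (by
    have e1 : ((((m + j : ℕ) : ℤ) - 1 * m : ℤ) : ℝ) = j := by push_cast; ring
    rw [e1, abs_of_nonneg (Nat.cast_nonneg _)]
    refine hj.trans ?_
    calc 3 * (L : ℝ) ≤ 3 * (2 * Real.exp (lam N)) := by gcongr
      _ = 6 * Real.exp (lam N) := by ring
      _ ≤ Real.exp 10 * Real.exp (3 * lam N) := by
          apply mul_le_mul
          · have := Real.add_one_le_exp (10 : ℝ); linarith
          · exact Real.exp_le_exp.2 (by linarith)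
          · positivity
          · positivity
      _ = _ := by rw [← Real.exp_add]; congr 1; ring)
  rw [one_mul, Tn_iter_cast, Tn_iter_cast] at g5
  have g6 : Tn^[t] (m + j) = Tn^[t] m := by exact_mod_cast g5
  have hjm : j < m := by
    have e1 : (j : ℝ) ≤ 6 * Real.exp (lam N) := by linarith
    have e2 : (j : ℝ) ^ 2 ≤ (6 * Real.exp (lam N)) ^ 2 :=
      pow_le_pow_left₀ (Nat.cast_nonneg _) e1 2
    have e3 : (N : ℝ) ≤ (m : ℝ) ^ 2 := by exact_mod_cast g1
    have e4 : (j : ℝ) ^ 2 < (m : ℝ) ^ 2 := by linarith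
    have e5 : j ^ 2 < m ^ 2 := by exact_mod_cast e4
    exact lt_of_pow_lt_pow_left₀ 2 (Nat.zero_le _) e5
  have g7 := fun k => H_transfer ht (Nat.le_add_right m j) (by omega) g6 k
  unfold Dat
  have e1 : ((m : ℤ) + (j : ℤ)).toNat = m + j := by omega
  rw [e1, Int.toNat_natCast]
  constructor
  · rintro ⟨_, k, hk, hR⟩
    have hk' := (g7 k).1.1 hk
    refine ⟨by omega, k, hk', ?_⟩
    rw [← (g7 k).2 hk']; exact hR
  · rintro ⟨_, k, hk, hR⟩
    refine ⟨by omega, k, (g7 k).1.2 hk, ?_⟩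
    rw [(g7 k).2 hk]; exact hR

lemma cnt_small (a m : ℕ) : cnt (fun x : ℤ => x ≤ a) m ≤ a := by
  unfold cnt
  have h1 : ∀ x ∈ Icc (1 : ℤ) m, ind (fun x : ℤ => x ≤ a) x ≤ if x ∈ Icc (1 : ℤ) a then 1 else 0 := by
    intro x hx
    rw [mem_Icc] at hx
    by_cases h : x ≤ a
    · rw [if_pos (mem_Icc.2 ⟨hx.1, h⟩)]
      exact (ind_mem _ x).2
    · have e : ind (fun x : ℤ => x ≤ a) x = 0 := by unfold ind; rw [if_neg h]
      rw [e]; split_ifs <;> norm_num
  refine (sum_le_sum h1).trans ?_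
  rw [← sum_filter, sum_const, nsmul_eq_mul, mul_one]
  have h2 : ((Icc (1 : ℤ) m).filter (fun x => x ∈ Icc (1 : ℤ) a)).card ≤ (Icc (1 : ℤ) a).card := by
    apply card_le_card
    intro x hx
    exact (mem_filter.1 hx).2
  rw [Int.card_Icc] at h2
  have h3 : ((a : ℤ) + 1 - 1).toNat = a := by omega
  rw [h3] at h2
  exact_mod_cast h2

/-- general criterion -/
theorem App_of {W : ℕ → ℤ → Prop} {δ : ℝ} (h : ∀ κ : ℝ, 0 < κ → ∀ᶠ N : ℕ in atTop, ∃ R R' : ℕ → ℕ → Prop,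
    (∀ x ∈ Icc (1 : ℤ) N, κ * N < x → (Dat R x → W N x) ∧ (W N x → Dat R' x)) ∧
    (∀ m : ℕ, m ≤ N → |cnt (Dat R) m - δ * m| ≤ κ * N ∧ |cnt (Dat R') m - δ * m| ≤ κ * N)) : App W δ := by
  intro η hη K
  filter_upwards [h (η / 8) (by positivity), locH (η / 8) (by positivity), F3 0, F3 K,
    F4 (η / 8) (by positivity), tlog.eventually_ge_atTop 1,
    tendsto_natCast_atTop_atTop.eventually_ge_atTop (8 / η)] with N h1 h2 h3 h3' h4 h5 h6
  obtain ⟨R, R', hR, hc⟩ := h1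
  obtain ⟨E, hE, hloc⟩ := h2
  have h0 := lam_nonneg h3
  obtain ⟨hL1, hL2⟩ := lamL N h0
  have hlog0 : 0 ≤ Real.log (N : ℝ) := Real.log_natCast_nonneg N
  have hN0 : (0 : ℝ) ≤ N := Nat.cast_nonneg _
  set L := ⌈Real.exp (lam N)⌉₊ with hL
  have hLlog : (L : ℝ) * Real.log N ≤ η / 8 * N := (mul_le_mul_of_nonneg_right hL2 hlog0).trans h4
  have hLN : (L : ℝ) ≤ η / 8 * N := by
    have : (L : ℝ) * 1 ≤ L * Real.log N := mul_le_mul_of_nonneg_left h5 (Nat.cast_nonneg _)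
    linarith
  have h1N : (1 : ℝ) ≤ η / 8 * N := by
    rw [div_le_iff₀ hη] at h6
    linarith
  set a := ⌊η / 8 * (N : ℝ)⌋₊ with ha
  have ha1 : (a : ℝ) ≤ η / 8 * N := Nat.floor_le (by positivity)
  have ha2 : ∀ x : ℤ, (a : ℤ) < x → η / 8 * (N : ℝ) < x := by
    intro x hx
    have h7 : η / 8 * (N : ℝ) < a + 1 := Nat.lt_floor_add_one _
    have h8 : ((a : ℝ) + 1) ≤ x := by exact_mod_cast hx
    linarith
  set E' : Finset ℤ := E ∪ Icc ((a : ℤ) - 3 * L) a with hE'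
  have hcard : (E'.card : ℝ) ≤ η * N := by
    have c1 : E'.card ≤ E.card + (3 * L + 1) := by
      refine (card_union_le _ _).trans ?_
      apply Nat.add_le_add_left
      rw [Int.card_Icc]; omega
    have c2 : (E'.card : ℝ) ≤ E.card + (3 * L + 1) := by exact_mod_cast c1
    nlinarith
  refine ⟨E', L, fun x => (a : ℤ) < x ∧ Dat R x, fun x => x ≤ a ∨ Dat R' x, hcard, by linarith,
    by nlinarith, ?_, ?_, ?_, ?_⟩
  · intro n hn hnE h hh
    rw [hE', mem_union, not_or, mem_Icc] at hnE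
    have g1 := hloc L hL2 R n hn hnE.1 h hh
    rw [mem_Icc] at hn hh
    rcases lt_or_ge (a : ℤ) n with g2 | g2
    · constructor
      · rintro ⟨_, g3⟩; exact ⟨g2, g1.1 g3⟩
      · rintro ⟨_, g3⟩; exact ⟨by omega, g1.2 g3⟩
    · constructor
      · rintro ⟨g3, _⟩; exfalso; omega
      · rintro ⟨g3, _⟩; exfalso; omega
  · intro n hn hnE h hh
    rw [hE', mem_union, not_or, mem_Icc] at hnE
    have g1 := hloc L hL2 R' n hn hnE.1 h hh
    rw [mem_Icc] at hn hh
    rcases lt_or_ge (a : ℤ) n with g2 | g2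
    · constructor
      · rintro (g3 | g3)
        · exfalso; omega
        · exact Or.inr (g1.1 g3)
      · rintro (g3 | g3)
        · exfalso; omega
        · exact Or.inr (g1.2 g3)
    · constructor
      · intro _; exact Or.inl g2
      · intro _; exact Or.inl (by omega)
  · intro x hx
    constructor
    · rintro ⟨g1, g2⟩
      exact (hR x hx (ha2 x g1)).1 g2
    · intro g1
      rcases lt_or_ge (a : ℤ) x with g2 | g2
      · exact Or.inr ((hR x hx (ha2 x g2)).2 g1)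
      · exact Or.inl g2
  · intro m hm
    obtain ⟨c1, c2⟩ := hc m hm
    rw [abs_le] at c1 c2
    have d0 := cnt_small a m
    constructor
    · have d1 : cnt (fun x : ℤ => (a : ℤ) < x ∧ Dat R x) m ≤ cnt (Dat R) m :=
        cnt_mono' fun x _ hx => hx.2
      have d2 : cnt (Dat R) m ≤ cnt (fun x : ℤ => (a : ℤ) < x ∧ Dat R x) m + cnt (fun x : ℤ => x ≤ a) m :=
        cnt_or' fun x _ hx => by
          rcases lt_or_ge (a : ℤ) x with g2 | g2
          · exact Or.inl ⟨g2, hx⟩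
          · exact Or.inr g2
      rw [abs_le]
      constructor <;> nlinarith [c1.1, c1.2]
    · have d1 : cnt (Dat R') m ≤ cnt (fun x : ℤ => x ≤ a ∨ Dat R' x) m :=
        cnt_mono' fun x _ hx => Or.inr hx
      have d2 : cnt (fun x : ℤ => x ≤ a ∨ Dat R' x) m ≤ cnt (fun x : ℤ => x ≤ a) m + cnt (Dat R') m :=
        cnt_or' fun x _ hx => hx
      rw [abs_le]
      constructor <;> nlinarith [c2.1, c2.2]

end Pool.Agent.TH465.HP
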