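import Mathlib
import Pool.Agent.TH465.HP.Loc
import Pool.Agent.H499R2.HL.B

/-! The laws of the numbers of odd terms, at every scale. -/

set_option autoImplicit false

namespace Pool.Agent.TH465.HP
open Finset Filter Topology Pool.Agent.TH204.CP
open Pool.Agent.H499R2.HL (H bo bo_theta rr rr_pos nu nu_pos sqrt_rr sqrt_add)
open Pool.Agent.H499R2.LT (odn)
open Pool.Agent.H499R2.ND (Tn Dn Phi Phi_continuous phi_cdf)

lemma mem_AA {P : ℤ → Prop} {N n : ℕ} : n ∈ AA P N ↔ (1 ≤ n ∧ n ≤ N) ∧ P n := by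
  classical
  unfold AA
  rw [mem_filter, mem_Icc]

lemma cnt_nat (P : ℕ → Prop) (M : ℕ) :
    cnt (fun x : ℤ => 0 < x ∧ P x.toNat) M = Pool.Agent.H499R2.ND.cnt P M := by
  classical
  rw [← card_AA]
  unfold Pool.Agent.H499R2.ND.cnt
  have h : {n : ℕ | 1 ≤ n ∧ n ≤ M ∧ P n} = (AA (fun x : ℤ => 0 < x ∧ P x.toNat) M : Set ℕ) := by
    ext n
    rw [mem_coe, mem_AA]
    simp only [Set.mem_ofPred_eq, Int.toNat_natCast]
    constructor
    · rintro ⟨h1, h2, h3⟩; exact ⟨⟨h1, h2⟩, by omega, h3⟩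
    · rintro ⟨⟨h1, h2⟩, _, h3⟩; exact ⟨h1, h2, h3⟩
  rw [h, Set.ncard_coe_finset]

lemma unif_of {P : ℕ → Prop} {δ : ℝ} (h : Dn P δ) (κ : ℝ) (hκ : 0 < κ) : ∀ᶠ N : ℕ in atTop,
    ∀ m : ℕ, m ≤ N → |cnt (fun x : ℤ => 0 < x ∧ P x.toNat) m - δ * m| ≤ κ * N := by
  obtain ⟨N0, hN0⟩ := Metric.tendsto_atTop.1 h κ hκ
  filter_upwards [tendsto_natCast_atTop_atTop.eventually_ge_atTop ((1 + |δ|) * N0 / κ),
    eventually_ge_atTop 1] with N h1 h2 m hm
  rw [cnt_nat]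
  have hN : (0 : ℝ) < N := by exact_mod_cast h2
  have hmN : (m : ℝ) ≤ N := by exact_mod_cast hm
  rcases Nat.lt_or_ge m (N0 + 1) with h3 | h3
  · rw [div_le_iff₀ hκ] at h1
    have hm0 : (m : ℝ) ≤ N0 := by exact_mod_cast (by omega : m ≤ N0)
    have e1 : |Pool.Agent.H499R2.ND.cnt P m| ≤ m := by
      rw [← cnt_nat, abs_of_nonneg (cnt_nonneg _ _)]
      exact cnt_le _ _
    have e2 : |δ * m| ≤ |δ| * N0 := by
      rw [abs_mul, abs_of_nonneg (Nat.cast_nonneg m : (0 : ℝ) ≤ m)]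
      exact mul_le_mul_of_nonneg_left hm0 (abs_nonneg δ)
    have e3 := abs_sub (Pool.Agent.H499R2.ND.cnt P m) (δ * m)
    nlinarith
  · have h4 := hN0 m (by omega)
    have hm1 : (0 : ℝ) < m := by exact_mod_cast (by omega : 0 < m)
    rw [Real.dist_eq] at h4
    have h5 : |Pool.Agent.H499R2.ND.cnt P m - δ * m| = |Pool.Agent.H499R2.ND.cnt P m / m - δ| * m := by
      rw [← abs_of_pos hm1, ← abs_mul, abs_of_pos hm1]
      congr 1
      field_simp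
    rw [h5]
    calc |Pool.Agent.H499R2.ND.cnt P m / m - δ| * m ≤ κ * m := mul_le_mul_of_nonneg_right h4.le hm1.le
      _ ≤ κ * N := mul_le_mul_of_nonneg_left hmN hκ.le

lemma tsqrt : Tendsto (fun N : ℕ => √ (Real.log (N : ℝ))) atTop atTop :=
  Real.tendsto_sqrt_atTop.comp tlog

/-- logarithms at the scale `N` -/
lemma log_scale {κ : ℝ} (hκ : 0 < κ) {N z : ℕ} (hN : 1 ≤ N) (h1 : κ * N < z) (h2 : z ≤ N) :
    Real.log z ≤ Real.log N ∧ Real.log N ≤ Real.log z + |Real.log κ| := by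
  have hNr : (0 : ℝ) < N := by exact_mod_cast hN
  have hz : (0 : ℝ) < z := lt_trans (mul_pos hκ hNr) h1
  constructor
  · exact Real.log_le_log hz (by exact_mod_cast h2)
  · have h3 := Real.log_le_log (mul_pos hκ hNr) h1.le
    rw [Real.log_mul hκ.ne' hNr.ne'] at h3
    have := neg_abs_le (Real.log κ)
    linarith

lemma bo_form (x L : ℝ) : bo x L = L / nu + x * (Real.log 2 * rr) * √ L := by
  unfold bo
  rw [sqrt_rr]
  unfold nu
  ring

lemma bo_cmp {x y κ : ℝ} (hxy : x < y) (hκ : 0 < κ) : ∀ᶠ N : ℕ in atTop, ∀ z : ℕ, κ * N < z → z ≤ N →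
    bo x (Real.log z) ≤ bo y (Real.log N) ∧ bo x (Real.log N) ≤ bo y (Real.log z) := by
  set c : ℝ := Real.log 2 * rr with hc
  have hc0 : 0 < c := mul_pos (Real.log_pos (by norm_num)) rr_pos
  set D : ℝ := |Real.log κ| with hD
  have hD0 : 0 ≤ D := abs_nonneg _
  have hnu := nu_pos
  filter_upwards [tsqrt.eventually_ge_atTop ((D / nu + c * (|x| + |y|) * √ D) / (c * (y - x))),
    eventually_ge_atTop 1] with N h1 h2 z hz1 hz2
  obtain ⟨h3, h4⟩ := log_scale hκ h2 hz1 hz2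
  rw [div_le_iff₀ (mul_pos hc0 (by linarith))] at h1
  have hz0 : 0 ≤ Real.log (z : ℝ) := Real.log_natCast_nonneg z
  set ℓ := Real.log (N : ℝ) with hℓ
  set ℓ' := Real.log (z : ℝ) with hℓ'
  have h5 : √ ℓ' ≤ √ ℓ := Real.sqrt_le_sqrt h3
  have h6 : √ ℓ ≤ √ ℓ' + √ D := (Real.sqrt_le_sqrt h4).trans (sqrt_add hz0 hD0)
  have hsD : 0 ≤ √ D := Real.sqrt_nonneg D
  have hx1 := neg_abs_le x
  have hx2 := le_abs_self x
  have hy1 := neg_abs_le y
  have hy2 := le_abs_self y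
  have hax := abs_nonneg x
  have hay := abs_nonneg y
  have hDn : 0 ≤ D / nu := div_nonneg hD0 hnu.le
  have hdiv1 : ℓ' / nu ≤ ℓ / nu := div_le_div_of_nonneg_right h3 hnu.le
  have hdiv2 : ℓ / nu ≤ ℓ' / nu + D / nu := by
    rw [← add_div]; exact div_le_div_of_nonneg_right h4 hnu.le
  -- products
  have p1 : -(|x| * √ D) ≤ x * (√ ℓ - √ ℓ') := by
    have q1 : 0 ≤ √ ℓ - √ ℓ' := by linarith
    have q2 : √ ℓ - √ ℓ' ≤ √ D := by linarith
    have q3 : -|x| * (√ ℓ - √ ℓ') ≤ x * (√ ℓ - √ ℓ') := mul_le_mul_of_nonneg_right hx1 q1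
    have q4 : |x| * (√ ℓ - √ ℓ') ≤ |x| * √ D := mul_le_mul_of_nonneg_left q2 hax
    linarith
  have p2 : y * (√ ℓ - √ ℓ') ≤ |y| * √ D := by
    have q1 : 0 ≤ √ ℓ - √ ℓ' := by linarith
    have q2 : √ ℓ - √ ℓ' ≤ √ D := by linarith
    have q3 : y * (√ ℓ - √ ℓ') ≤ |y| * (√ ℓ - √ ℓ') := mul_le_mul_of_nonneg_right hy2 q1
    have q4 : |y| * (√ ℓ - √ ℓ') ≤ |y| * √ D := mul_le_mul_of_nonneg_left q2 hay
    linarith
  have p1' := mul_le_mul_of_nonneg_left p1 hc0.le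
  have p2' := mul_le_mul_of_nonneg_left p2 hc0.le
  have p3 : 0 ≤ c * (|y| * √ D) := by positivity
  have p4 : 0 ≤ c * (|x| * √ D) := by positivity
  rw [bo_form, bo_form, bo_form, bo_form, ← hc]
  constructor
  · nlinarith
  · nlinarith

/-- the law at every scale -/
theorem App_law {δ : ℝ} {q : ℕ} {b : ℤ}
    (hlaw : ∀ x : ℝ, Dn (fun n => ∃ k : ℕ, (odn k n : ℝ) ≤ bo x (Real.log n) ∧ H k n ∧
      (odn k n : ℤ) ≡ b [ZMOD q]) (δ / q * Phi x)) (x : ℝ) :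
    App (fun _ z => 0 < z ∧ ∃ k : ℕ, (odn k z.toNat : ℝ) ≤ bo x (Real.log z.toNat) ∧ H k z.toNat ∧
      (odn k z.toNat : ℤ) ≡ b [ZMOD q]) (δ / q * Phi x) := by
  apply App_of
  intro κ hκ
  have hcont : Continuous (fun y => δ / q * Phi y) := Phi_continuous.const_mul _
  obtain ⟨r, hr, hr'⟩ := Metric.continuousAt_iff.1 (hcont.continuousAt (x := x)) (κ / 4) (by positivity)
  set θ : ℝ := r / 4 with hθ
  have hθ0 : 0 < θ := by positivity
  have d1 := hr' (x := x + 2 * θ) (by rw [Real.dist_eq, add_sub_cancel_left, abs_of_pos (by positivity)]; linarith)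
  have d2 := hr' (x := x - 2 * θ) (by
    rw [Real.dist_eq, sub_sub_cancel_left, abs_neg, abs_of_pos (by positivity)]; linarith)
  rw [Real.dist_eq, abs_lt] at d1 d2
  have hκ4 : 0 < κ / 4 := by positivity
  filter_upwards [bo_cmp (show x - θ < x by linarith) hκ4, bo_cmp (show x < x + θ by linarith) hκ4,
    bo_cmp (show x - 2 * θ < x - θ by linarith) hκ4, bo_cmp (show x + θ < x + 2 * θ by linarith) hκ4,
    unif_of (hlaw x) (κ / 4) hκ4, unif_of (hlaw (x + 2 * θ)) (κ / 4) hκ4,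
    unif_of (hlaw (x - 2 * θ)) (κ / 4) hκ4, eventually_ge_atTop 1] with N c1 c2 c3 c4 u1 u2 u3 hN1
  have hNr : (1 : ℝ) ≤ N := by exact_mod_cast hN1
  have hN0 : (0 : ℝ) ≤ N := by linarith
  set W : ℝ → ℤ → Prop := fun y z => 0 < z ∧ (fun n : ℕ => ∃ k : ℕ, (odn k n : ℝ) ≤ bo y (Real.log n) ∧ H k n ∧
      (odn k n : ℤ) ≡ b [ZMOD q]) z.toNat with hW
  set R : ℕ → ℕ → Prop := fun _ o => (o : ℝ) ≤ bo (x - θ) (Real.log N) ∧ (o : ℤ) ≡ b [ZMOD q] with hR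
  set R' : ℕ → ℕ → Prop := fun _ o => (o : ℝ) ≤ bo (x + θ) (Real.log N) ∧ (o : ℤ) ≡ b [ZMOD q] with hR'
  set a := ⌊κ / 4 * (N : ℝ)⌋₊ with ha
  have ha1 : (a : ℝ) ≤ κ / 4 * N := Nat.floor_le (by positivity)
  have ha2 : ∀ z : ℤ, (a : ℤ) < z → κ / 4 * (N : ℝ) < (z.toNat : ℝ) := by
    intro z hz
    have h7 : κ / 4 * (N : ℝ) < a + 1 := Nat.lt_floor_add_one _
    have h8 : a + 1 ≤ z.toNat := by omega
    have h9 : ((a : ℝ) + 1) ≤ z.toNat := by exact_mod_cast h8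
    linarith
  -- the four inclusions
  have i1 : ∀ z ∈ Icc (1 : ℤ) N, Dat R z → W x z ∨ z ≤ a := by
    rintro z hz ⟨hz0, k, hk, ho, hob⟩
    rw [mem_Icc] at hz
    rcases lt_or_ge (a : ℤ) z with g | g
    · exact Or.inl ⟨hz0, k, ho.trans (c1 z.toNat (ha2 z g) (by omega)).2, hk, hob⟩
    · exact Or.inr g
  have i2 : ∀ z ∈ Icc (1 : ℤ) N, W x z → Dat R' z ∨ z ≤ a := by
    rintro z hz ⟨hz0, k, ho, hk, hob⟩
    rw [mem_Icc] at hz
    rcases lt_or_ge (a : ℤ) z with g | g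
    · exact Or.inl ⟨hz0, k, hk, ho.trans (c2 z.toNat (ha2 z g) (by omega)).1, hob⟩
    · exact Or.inr g
  have i3 : ∀ z ∈ Icc (1 : ℤ) N, W (x - 2 * θ) z → Dat R z ∨ z ≤ a := by
    rintro z hz ⟨hz0, k, ho, hk, hob⟩
    rw [mem_Icc] at hz
    rcases lt_or_ge (a : ℤ) z with g | g
    · exact Or.inl ⟨hz0, k, hk, ho.trans (c3 z.toNat (ha2 z g) (by omega)).1, hob⟩
    · exact Or.inr g
  have i4 : ∀ z ∈ Icc (1 : ℤ) N, Dat R' z → W (x + 2 * θ) z ∨ z ≤ a := by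
    rintro z hz ⟨hz0, k, hk, ho, hob⟩
    rw [mem_Icc] at hz
    rcases lt_or_ge (a : ℤ) z with g | g
    · exact Or.inl ⟨hz0, k, ho.trans (c4 z.toNat (ha2 z g) (by omega)).2, hk, hob⟩
    · exact Or.inr g
  refine ⟨R, R', ?_, ?_⟩
  · intro z hz hz'
    have hza : (a : ℤ) < z := by
      have : (a : ℝ) < z := by nlinarith
      exact_mod_cast this
    exact ⟨fun h => (i1 z hz h).resolve_right (by omega), fun h => (i2 z hz h).resolve_right (by omega)⟩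
  · intro m hm
    have hmN : (m : ℝ) ≤ N := by exact_mod_cast hm
    have hm0 : (0 : ℝ) ≤ m := Nat.cast_nonneg _
    have hsub : ∀ z ∈ Icc (1 : ℤ) m, z ∈ Icc (1 : ℤ) N := by
      intro z hz
      rw [mem_Icc] at hz ⊢; omega
    have s0 := cnt_small a m
    have k1 : cnt (Dat R) m ≤ cnt (W x) m + cnt (fun z : ℤ => z ≤ a) m := cnt_or' fun z hz h => i1 z (hsub z hz) h
    have k2 : cnt (W x) m ≤ cnt (Dat R') m + cnt (fun z : ℤ => z ≤ a) m := cnt_or' fun z hz h => i2 z (hsub z hz) h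
    have k3 : cnt (W (x - 2 * θ)) m ≤ cnt (Dat R) m + cnt (fun z : ℤ => z ≤ a) m :=
      cnt_or' fun z hz h => i3 z (hsub z hz) h
    have k4 : cnt (Dat R') m ≤ cnt (W (x + 2 * θ)) m + cnt (fun z : ℤ => z ≤ a) m :=
      cnt_or' fun z hz h => i4 z (hsub z hz) h
    have v1 := abs_le.1 (u1 m hm)
    have v2 := abs_le.1 (u2 m hm)
    have v3 := abs_le.1 (u3 m hm)
    have w1 : δ / q * Phi (x + 2 * θ) * m ≤ δ / q * Phi x * m + κ / 4 * N := by
      have : (δ / q * Phi (x + 2 * θ) - δ / q * Phi x) * m ≤ κ / 4 * m :=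
        mul_le_mul_of_nonneg_right (by linarith [d1.2]) hm0
      nlinarith
    have w2 : δ / q * Phi x * m - κ / 4 * N ≤ δ / q * Phi (x - 2 * θ) * m := by
      have : (δ / q * Phi x - δ / q * Phi (x - 2 * θ)) * m ≤ κ / 4 * m :=
        mul_le_mul_of_nonneg_right (by linarith [d2.1]) hm0
      nlinarith
    have y1 : cnt (W x) m ≤ δ / q * Phi x * m + κ / 4 * N := by
      have := v1.2
      show cnt (fun z : ℤ => 0 < z ∧ (fun n : ℕ => ∃ k : ℕ, (odn k n : ℝ) ≤ bo x (Real.log n) ∧ H k n ∧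
        (odn k n : ℤ) ≡ b [ZMOD q]) z.toNat) m ≤ _
      linarith
    have y2 : δ / q * Phi x * m - κ / 4 * N ≤ cnt (W x) m := by
      have := v1.1
      show _ ≤ cnt (fun z : ℤ => 0 < z ∧ (fun n : ℕ => ∃ k : ℕ, (odn k n : ℝ) ≤ bo x (Real.log n) ∧ H k n ∧
        (odn k n : ℤ) ≡ b [ZMOD q]) z.toNat) m
      linarith
    have y3 : cnt (W (x + 2 * θ)) m ≤ δ / q * Phi (x + 2 * θ) * m + κ / 4 * N := by
      have := v2.2
      show cnt (fun z : ℤ => 0 < z ∧ (fun n : ℕ => ∃ k : ℕ, (odn k n : ℝ) ≤ bo (x + 2 * θ) (Real.log n) ∧ H k n ∧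
        (odn k n : ℤ) ≡ b [ZMOD q]) z.toNat) m ≤ _
      linarith
    have y4 : δ / q * Phi (x - 2 * θ) * m - κ / 4 * N ≤ cnt (W (x - 2 * θ)) m := by
      have := v3.1
      show _ ≤ cnt (fun z : ℤ => 0 < z ∧ (fun n : ℕ => ∃ k : ℕ, (odn k n : ℝ) ≤ bo (x - 2 * θ) (Real.log n) ∧ H k n ∧
        (odn k n : ℤ) ≡ b [ZMOD q]) z.toNat) m
      linarith
    constructor
    · rw [abs_le]; constructor <;> linarith
    · rw [abs_le]; constructor <;> linarith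

end Pool.Agent.TH465.HP
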