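import Mathlib
import Pool.Agent.TH465.HP.Ht
import Pool.Agent.TH465.HP.Fin

/-! Normal order: the sets of the truncated averages. -/

set_option autoImplicit false

namespace Pool.Agent.TH465.HP
open Finset Filter Topology Pool.Agent.TH204.CP
open Pool.Agent.H499R2.HL (H bo bo_theta rr rr_pos nu nu_pos sqrt_rr sqrt_add)
open Pool.Agent.H499R2.LT (odn)
open Pool.Agent.H499R2.ND (Tn Dn Phi Phi_continuous phi_cdf)

theorem App_true : App (fun _ _ => True) 1 := by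
  intro η hη K
  filter_upwards [F3 0, F3 K, F4 η hη] with N h3 h3' h4
  have h0 := lam_nonneg h3
  obtain ⟨hL1, hL2⟩ := lamL N h0
  have hlog0 : 0 ≤ Real.log (N : ℝ) := Real.log_natCast_nonneg N
  have hN0 : (0 : ℝ) ≤ N := Nat.cast_nonneg _
  have hc : ∀ m : ℕ, cnt (fun _ : ℤ => True) m = m := by
    intro m
    unfold cnt ind
    simp
  refine ⟨∅, ⌈Real.exp (lam N)⌉₊, fun _ => True, fun _ => True, ?_, by linarith,
    (mul_le_mul_of_nonneg_right hL2 hlog0).trans h4, ?_, ?_, ?_, ?_⟩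
  · rw [card_empty, Nat.cast_zero]; positivity
  · intro n _ _ h _; exact Iff.rfl
  · intro n _ _ h _; exact Iff.rfl
  · intro x _; exact ⟨fun h => h, fun h => h⟩
  · intro m _
    rw [hc, one_mul, sub_self, abs_zero]
    constructor <;> positivity

/-- criterion for the sets of data -/
theorem App_dat {R : ℕ → ℕ → ℕ → Prop} {δ : ℝ} (h : ∀ κ : ℝ, 0 < κ → ∀ᶠ N : ℕ in atTop,
    ∀ m : ℕ, m ≤ N → |cnt (Dat (R N)) m - δ * m| ≤ κ * N) : App (fun N => Dat (R N)) δ := by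
  apply App_of
  intro κ hκ
  filter_upwards [h κ hκ] with N hN
  exact ⟨R N, R N, fun x _ _ => ⟨fun h => h, fun h => h⟩, fun m hm => ⟨hN m hm, hN m hm⟩⟩

lemma dat_true (z : ℤ) : Dat (fun _ _ => True) z ↔ (0 < z ∧ (fun n : ℕ => ∃ k, H k n) z.toNat) := by
  unfold Dat
  constructor
  · rintro ⟨h, k, hk, _⟩; exact ⟨h, k, hk⟩
  · rintro ⟨h, k, hk⟩; exact ⟨h, k, hk, trivial⟩

lemma cnt_congr {P Q : ℤ → Prop} {N : ℕ} (h : ∀ x ∈ Icc (1 : ℤ) N, P x ↔ Q x) : cnt P N = cnt Q N :=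
  le_antisymm (cnt_mono' fun x hx => (h x hx).1) (cnt_mono' fun x hx => (h x hx).2)

theorem fin_unif {δ : ℝ} (h : Dn (fun n => ∃ k, H k n) δ) (κ : ℝ) (hκ : 0 < κ) : ∀ᶠ N : ℕ in atTop,
    ∀ m : ℕ, m ≤ N → |cnt (Dat (fun _ _ => True)) m - δ * m| ≤ κ * N := by
  filter_upwards [unif_of h κ hκ] with N hN m hm
  rw [cnt_congr (fun x _ => dat_true x)]
  exact hN m hm

theorem App_fin {δ : ℝ} (h : Dn (fun n => ∃ k, H k n) δ) : App (fun _ => Dat (fun _ _ => True)) δ :=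
  App_dat (R := fun _ _ _ => True) (fin_unif h)

lemma bo_low {c' κ : ℝ} (hc : c' < 1 / nu) (hκ : 0 < κ) (x : ℝ) : ∀ᶠ N : ℕ in atTop, ∀ z : ℕ,
    κ * N < z → z ≤ N → c' * Real.log N ≤ bo x (Real.log z) := by
  set c : ℝ := Real.log 2 * rr with hcd
  have hc0 : 0 < c := mul_pos (Real.log_pos (by norm_num)) rr_pos
  set D : ℝ := |Real.log κ| with hD
  have hD0 : 0 ≤ D := abs_nonneg _
  have hnu := nu_pos
  filter_upwards [tsqrt.eventually_ge_atTop ((D / nu + |x| * c) / (1 / nu - c')),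
    tsqrt.eventually_ge_atTop 1, eventually_ge_atTop 1] with N h1 h1' h2 z hz1 hz2
  obtain ⟨h3, h4⟩ := log_scale hκ h2 hz1 hz2
  rw [div_le_iff₀ (by linarith)] at h1
  have hz0 : 0 ≤ Real.log (z : ℝ) := Real.log_natCast_nonneg z
  have hN0 : 0 ≤ Real.log (N : ℝ) := Real.log_natCast_nonneg N
  set ℓ := Real.log (N : ℝ) with hℓ
  set ℓ' := Real.log (z : ℝ) with hℓ'
  have h5 : √ ℓ' ≤ √ ℓ := Real.sqrt_le_sqrt h3
  have h5' : 0 ≤ √ ℓ' := Real.sqrt_nonneg _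
  have hdiv2 : ℓ / nu ≤ ℓ' / nu + D / nu := by
    rw [← add_div]; exact div_le_div_of_nonneg_right h4 hnu.le
  have hs : √ ℓ * √ ℓ = ℓ := Real.mul_self_sqrt hN0
  have hax := abs_nonneg x
  have q1 : -(|x| * c * √ ℓ) ≤ x * c * √ ℓ' := by
    have q2 : -|x| * (c * √ ℓ') ≤ x * (c * √ ℓ') := mul_le_mul_of_nonneg_right (neg_abs_le x) (by positivity)
    have q3 : |x| * c * √ ℓ' ≤ |x| * c * √ ℓ := mul_le_mul_of_nonneg_left h5 (by positivity)
    linarith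
  have q4 : (D / nu + |x| * c) * √ ℓ ≤ √ ℓ * (1 / nu - c') * √ ℓ := mul_le_mul_of_nonneg_right h1 (by linarith)
  have q5 : D / nu ≤ D / nu * √ ℓ := le_mul_of_one_le_right (by positivity) h1'
  have q6 : √ ℓ * (1 / nu - c') * √ ℓ = ℓ / nu - c' * ℓ := by
    calc √ ℓ * (1 / nu - c') * √ ℓ = (√ ℓ * √ ℓ) * (1 / nu - c') := by ring
      _ = ℓ * (1 / nu - c') := by rw [hs]
      _ = _ := by ring
  rw [bo_form, ← hcd]
  nlinarith

lemma bo_upp {c' : ℝ} (hc : 1 / nu < c') (x : ℝ) : ∀ᶠ N : ℕ in atTop, ∀ z : ℕ, z ≤ N →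
    bo x (Real.log z) ≤ c' * Real.log N := by
  set c : ℝ := Real.log 2 * rr with hcd
  have hc0 : 0 < c := mul_pos (Real.log_pos (by norm_num)) rr_pos
  have hnu := nu_pos
  filter_upwards [tsqrt.eventually_ge_atTop (|x| * c / (c' - 1 / nu)), eventually_ge_atTop 1] with N h1 h2 z hz
  rw [div_le_iff₀ (by linarith)] at h1
  have hz0 : 0 ≤ Real.log (z : ℝ) := Real.log_natCast_nonneg z
  have hN0 : 0 ≤ Real.log (N : ℝ) := Real.log_natCast_nonneg N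
  have h3 : Real.log (z : ℝ) ≤ Real.log N := by
    rcases Nat.eq_zero_or_pos z with h | h
    · rw [h, Nat.cast_zero, Real.log_zero]; exact hN0
    · exact Real.log_le_log (by exact_mod_cast h) (by exact_mod_cast hz)
  set ℓ := Real.log (N : ℝ) with hℓ
  set ℓ' := Real.log (z : ℝ) with hℓ'
  have h5 : √ ℓ' ≤ √ ℓ := Real.sqrt_le_sqrt h3
  have h5' : 0 ≤ √ ℓ' := Real.sqrt_nonneg _
  have h5'' : 0 ≤ √ ℓ := Real.sqrt_nonneg _
  have hs : √ ℓ * √ ℓ = ℓ := Real.mul_self_sqrt hN0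
  have hax := abs_nonneg x
  have hdiv1 : ℓ' / nu ≤ ℓ / nu := div_le_div_of_nonneg_right h3 hnu.le
  have q1 : x * c * √ ℓ' ≤ |x| * c * √ ℓ := by
    have q2 : x * (c * √ ℓ') ≤ |x| * (c * √ ℓ') := mul_le_mul_of_nonneg_right (le_abs_self x) (by positivity)
    have q3 : |x| * c * √ ℓ' ≤ |x| * c * √ ℓ := mul_le_mul_of_nonneg_left h5 (by positivity)
    linarith
  have q4 : |x| * c * √ ℓ ≤ √ ℓ * (c' - 1 / nu) * √ ℓ := mul_le_mul_of_nonneg_right h1 h5''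
  have q6 : √ ℓ * (c' - 1 / nu) * √ ℓ = c' * ℓ - ℓ / nu := by
    calc √ ℓ * (c' - 1 / nu) * √ ℓ = (√ ℓ * √ ℓ) * (c' - 1 / nu) := by ring
      _ = ℓ * (c' - 1 / nu) := by rw [hs]
      _ = _ := by ring
  rw [bo_form, ← hcd]
  linarith

/-- the law with `q = 1` -/
def Law1 (δ : ℝ) : Prop := ∀ x : ℝ, Dn (fun n => ∃ k : ℕ, (odn k n : ℝ) ≤ bo x (Real.log n) ∧ H k n) (δ * Phi x)

lemma Phi_top {δ κ : ℝ} (hκ : 0 < κ) : ∃ x : ℝ, δ - κ ≤ δ * Phi x := by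
  have h1 : Tendsto (fun x => δ * Phi x) atTop (𝓝 (δ * 1)) := by
    apply Tendsto.const_mul
    have h2 := ProbabilityTheory.tendsto_cdf_atTop (ProbabilityTheory.gaussianReal 0 1)
    refine h2.congr fun x => ?_
    rw [phi_cdf]
  rw [mul_one] at h1
  obtain ⟨x, hx⟩ := (h1.eventually (lt_mem_nhds (show δ - κ < δ by linarith))).exists
  exact ⟨x, hx.le⟩

lemma Phi_bot {δ κ : ℝ} (hκ : 0 < κ) : ∃ x : ℝ, δ * Phi x ≤ κ := by
  have h1 : Tendsto (fun x => δ * Phi x) atBot (𝓝 (δ * 0)) := by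
    apply Tendsto.const_mul
    have h2 := ProbabilityTheory.tendsto_cdf_atBot (ProbabilityTheory.gaussianReal 0 1)
    refine h2.congr fun x => ?_
    rw [phi_cdf]
  rw [mul_zero] at h1
  obtain ⟨x, hx⟩ := (h1.eventually (gt_mem_nhds hκ)).exists
  exact ⟨x, hx.le⟩

theorem App_low {δ c' : ℝ} (hfin : Dn (fun n => ∃ k, H k n) δ) (hlaw : Law1 δ) (hc : c' < 1 / nu) :
    App (fun N => Dat (fun _ o => c' * Real.log N < (o : ℝ))) δ := by
  apply App_dat (R := fun N _ o => c' * Real.log N < (o : ℝ))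
  intro κ hκ
  have hκ4 : 0 < κ / 4 := by positivity
  obtain ⟨x, hx⟩ := Phi_bot (δ := δ) hκ4
  filter_upwards [bo_low hc hκ4 x, fin_unif hfin (κ / 4) hκ4, unif_of (hlaw x) (κ / 4) hκ4,
    eventually_ge_atTop 1] with N h1 h2 h3 hN1 m hm
  have hNr : (1 : ℝ) ≤ N := by exact_mod_cast hN1
  have hN0 : (0 : ℝ) ≤ N := by linarith
  have hmN : (m : ℝ) ≤ N := by exact_mod_cast hm
  have hm0 : (0 : ℝ) ≤ m := Nat.cast_nonneg _
  set a := ⌊κ / 4 * (N : ℝ)⌋₊ with ha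
  have ha1 : (a : ℝ) ≤ κ / 4 * N := Nat.floor_le (by positivity)
  have ha2 : ∀ z : ℤ, (a : ℤ) < z → κ / 4 * (N : ℝ) < (z.toNat : ℝ) := by
    intro z hz
    have h7 : κ / 4 * (N : ℝ) < a + 1 := Nat.lt_floor_add_one _
    have h8 : a + 1 ≤ z.toNat := by omega
    have h9 : ((a : ℝ) + 1) ≤ z.toNat := by exact_mod_cast h8
    linarith
  have g2 := abs_le.1 (h2 m hm)
  have g3 := abs_le.1 (h3 m hm)
  have s0 := cnt_small a m
  have k1 : cnt (Dat (fun _ o => c' * Real.log N < (o : ℝ))) m ≤ cnt (Dat (fun _ _ => True)) m :=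
    cnt_mono' fun z _ ⟨hz, k, hk, _⟩ => ⟨hz, k, hk, trivial⟩
  have k2 : cnt (Dat (fun _ _ => True)) m ≤ cnt (Dat (fun _ o => c' * Real.log N < (o : ℝ))) m +
      cnt (fun z : ℤ => (0 < z ∧ (fun n : ℕ => ∃ k : ℕ, (odn k n : ℝ) ≤ bo x (Real.log n) ∧ H k n) z.toNat) ∨ z ≤ a) m := by
    refine cnt_or' fun z hz hd => ?_
    obtain ⟨hz0, k, hk, _⟩ := hd
    rw [mem_Icc] at hz
    by_cases ho : c' * Real.log N < (odn k z.toNat : ℝ)
    · exact Or.inl ⟨hz0, k, hk, ho⟩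
    · refine Or.inr ?_
      rcases lt_or_ge (a : ℤ) z with g | g
      · push Not at ho
        exact Or.inl ⟨hz0, k, ho.trans (h1 z.toNat (ha2 z g) (by omega)), hk⟩
      · exact Or.inr g
  have k3 : cnt (fun z : ℤ => (0 < z ∧ (fun n : ℕ => ∃ k : ℕ, (odn k n : ℝ) ≤ bo x (Real.log n) ∧ H k n) z.toNat) ∨ z ≤ a) m ≤
      cnt (fun z : ℤ => 0 < z ∧ (fun n : ℕ => ∃ k : ℕ, (odn k n : ℝ) ≤ bo x (Real.log n) ∧ H k n) z.toNat) m +
      cnt (fun z : ℤ => z ≤ a) m := cnt_or' fun z _ h => h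
  have w1 : δ * Phi x * m ≤ κ / 4 * N := by
    have : δ * Phi x * m ≤ κ / 4 * m := mul_le_mul_of_nonneg_right hx hm0
    nlinarith
  rw [abs_le]
  constructor <;> linarith [g2.1, g2.2, g3.1, g3.2]

theorem App_upp {δ c' : ℝ} (hfin : Dn (fun n => ∃ k, H k n) δ) (hlaw : Law1 δ) (hc : 1 / nu < c') :
    App (fun N => Dat (fun _ o => (o : ℝ) ≤ c' * Real.log N)) δ := by
  apply App_dat (R := fun N _ o => (o : ℝ) ≤ c' * Real.log N)
  intro κ hκ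
  have hκ4 : 0 < κ / 4 := by positivity
  obtain ⟨x, hx⟩ := Phi_top (δ := δ) hκ4
  filter_upwards [bo_upp hc x, fin_unif hfin (κ / 4) hκ4, unif_of (hlaw x) (κ / 4) hκ4,
    eventually_ge_atTop 1] with N h1 h2 h3 hN1 m hm
  have hNr : (1 : ℝ) ≤ N := by exact_mod_cast hN1
  have hN0 : (0 : ℝ) ≤ N := by linarith
  have hmN : (m : ℝ) ≤ N := by exact_mod_cast hm
  have hm0 : (0 : ℝ) ≤ m := Nat.cast_nonneg _
  have g2 := abs_le.1 (h2 m hm)
  have g3 := abs_le.1 (h3 m hm)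
  have k1 : cnt (Dat (fun _ o => (o : ℝ) ≤ c' * Real.log N)) m ≤ cnt (Dat (fun _ _ => True)) m :=
    cnt_mono' fun z _ ⟨hz, k, hk, _⟩ => ⟨hz, k, hk, trivial⟩
  have k2 : cnt (fun z : ℤ => 0 < z ∧ (fun n : ℕ => ∃ k : ℕ, (odn k n : ℝ) ≤ bo x (Real.log n) ∧ H k n) z.toNat) m ≤
      cnt (Dat (fun _ o => (o : ℝ) ≤ c' * Real.log N)) m := by
    refine cnt_mono' fun z hz hd => ?_
    obtain ⟨hz0, k, ho, hk⟩ := hd
    rw [mem_Icc] at hz
    exact ⟨hz0, k, hk, ho.trans (h1 z.toNat (by omega))⟩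
  have w1 : δ * m - κ / 4 * N ≤ δ * Phi x * m := by
    have : (δ - κ / 4) * m ≤ δ * Phi x * m := mul_le_mul_of_nonneg_right hx hm0
    nlinarith
  rw [abs_le]
  constructor <;> linarith [g2.1, g2.2, g3.1, g3.2]

end Pool.Agent.TH465.HP
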