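import Mathlib
import Pool.Agent.TH465.HP.Avg

/-! Heights along sums with primes. -/

set_option autoImplicit false

namespace Pool.Agent.TH465.HP
open Finset Filter Topology Pool.Agent.TH204.CP
open Pool.Agent.H499R2.HL (H bo bo_theta rr rr_pos nu nu_pos sqrt_rr sqrt_add ht_H)
open Pool.Agent.H499R2.LT (odn)
open Pool.Agent.H499R2.ND (Tn Dn Phi Phi_continuous phi_cdf IsHt)

/-- pairs of primes with `p + p' < n` -/
def FP (n : ℕ) : Finset (ℕ × ℕ) := (range n ×ˢ range n).filter (fun z => z.1.Prime ∧ z.2.Prime ∧ z.1 + z.2 < n)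

/-- primes in `(k, k + N]` -/
def FS (k N : ℕ) : Finset ℕ := (Ioc k (k + N)).filter Nat.Prime

/-- primes below `n` -/
def FO (n : ℕ) : Finset ℕ := (range n).filter Nat.Prime

open Classical in
lemma TT3_card (P : ℤ → Prop) (n : ℕ) :
    TT3 P n = (((FP n).filter (fun z => P ((n - z.1 - z.2 : ℕ) : ℤ))).card : ℝ) := by
  rw [TT3_eq]
  have h : {z : ℕ × ℕ | z.1.Prime ∧ z.2.Prime ∧ z.1 + z.2 < n ∧ P (n - z.1 - z.2)} =
      (((FP n).filter (fun z => P ((n - z.1 - z.2 : ℕ) : ℤ)) : Finset (ℕ × ℕ)) : Set (ℕ × ℕ)) := by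
    ext z
    rw [mem_coe, mem_filter, FP, mem_filter, mem_product, mem_range, mem_range]
    simp only [Set.mem_ofPred_eq]
    constructor
    · rintro ⟨h1, h2, h3, h4⟩
      refine ⟨⟨⟨by omega, by omega⟩, h1, h2, h3⟩, ?_⟩
      have e : ((n - z.1 - z.2 : ℕ) : ℤ) = (n : ℤ) - z.1 - z.2 := by omega
      rw [e]; exact h4
    · rintro ⟨⟨_, h1, h2, h3⟩, h4⟩
      refine ⟨h1, h2, h3, ?_⟩
      have e : ((n - z.1 - z.2 : ℕ) : ℤ) = (n : ℤ) - z.1 - z.2 := by omega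
      rw [e] at h4; exact h4
  rw [h, Set.ncard_coe_finset]

open Classical in
lemma QD_card (P : ℤ → Prop) (k N : ℕ) :
    QD P (k : ℤ) N = (((FS k N).filter (fun p => P ((p - k : ℕ) : ℤ))).card : ℝ) := by
  rw [QD_eq]
  have h : {p : ℕ | p.Prime ∧ (k : ℤ) < p ∧ (p : ℤ) ≤ k + N ∧ P (p - k)} =
      (((FS k N).filter (fun p => P ((p - k : ℕ) : ℤ)) : Finset ℕ) : Set ℕ) := by
    ext p
    rw [mem_coe, mem_filter, FS, mem_filter, mem_Ioc]
    simp only [Set.mem_ofPred_eq]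
    constructor
    · rintro ⟨h1, h2, h3, h4⟩
      refine ⟨⟨⟨by omega, by omega⟩, h1⟩, ?_⟩
      have e : ((p - k : ℕ) : ℤ) = (p : ℤ) - k := by omega
      rw [e]; exact h4
    · rintro ⟨⟨h2, h1⟩, h4⟩
      refine ⟨h1, by omega, by omega, ?_⟩
      have e : ((p - k : ℕ) : ℤ) = (p : ℤ) - k := by omega
      rw [e] at h4; exact h4
  rw [h, Set.ncard_coe_finset]

open Classical in
lemma QS_card (P : ℤ → Prop) (n : ℕ) :
    QS P n n = (((FO n).filter (fun p => P ((n - p : ℕ) : ℤ))).card : ℝ) := by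
  rw [QS_eq]
  have h : {p : ℕ | p.Prime ∧ p < n ∧ P (n - p)} =
      (((FO n).filter (fun p => P ((n - p : ℕ) : ℤ)) : Finset ℕ) : Set ℕ) := by
    ext p
    rw [mem_coe, mem_filter, FO, mem_filter, mem_range]
    simp only [Set.mem_ofPred_eq]
    constructor
    · rintro ⟨h1, h2, h4⟩
      refine ⟨⟨h2, h1⟩, ?_⟩
      have e : ((n - p : ℕ) : ℤ) = (n : ℤ) - p := by omega
      rw [e]; exact h4
    · rintro ⟨⟨h2, h1⟩, h4⟩
      refine ⟨h1, h2, ?_⟩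
      have e : ((n - p : ℕ) : ℤ) = (n : ℤ) - p := by omega
      rw [e] at h4; exact h4
  rw [h, Set.ncard_coe_finset]

/-- exceptional pairs -/
def BP (n : ℕ) : Finset (ℕ × ℕ) := (range n).image (fun a => (2, a)) ∪ (range n).image (fun a => (a, 2)) ∪
  (range n).image (fun a => (a, n - 1 - a))

lemma BP_card (n : ℕ) : ((BP n).card : ℝ) ≤ 3 * n := by
  have h1 : (BP n).card ≤ n + n + n := by
    unfold BP
    refine (card_union_le _ _).trans (Nat.add_le_add ((card_union_le _ _).trans (Nat.add_le_add ?_ ?_)) ?_) <;>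
    · refine card_image_le.trans ?_
      rw [card_range]
  have h2 : ((BP n).card : ℝ) ≤ n + n + n := by exact_mod_cast h1
  linarith

lemma BP_good {n : ℕ} (hn : Odd n) : ∀ z ∈ FP n, z ∉ BP n → Odd (n - z.1 - z.2) ∧ 3 ≤ n - z.1 - z.2 := by
  rintro ⟨p, q⟩ hz hzB
  rw [FP, mem_filter, mem_product, mem_range, mem_range] at hz
  obtain ⟨⟨hp, hq⟩, hpp, hqp, hpq⟩ := hz
  simp only at hp hq hpp hqp hpq
  rw [BP, mem_union, mem_union, not_or, not_or] at hzB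
  obtain ⟨⟨h1, h2⟩, h3⟩ := hzB
  have h1' : p ≠ 2 := by
    rintro rfl
    exact h1 (mem_image.2 ⟨q, mem_range.2 hq, rfl⟩)
  have h2' : q ≠ 2 := by
    rintro rfl
    exact h2 (mem_image.2 ⟨p, mem_range.2 hp, rfl⟩)
  have h3' : q ≠ n - 1 - p := by
    intro h
    exact h3 (mem_image.2 ⟨p, mem_range.2 hp, by rw [h]⟩)
  have o1 := Nat.odd_iff.1 (hpp.odd_of_ne_two h1')
  have o2 := Nat.odd_iff.1 (hqp.odd_of_ne_two h2')
  have o3 := Nat.odd_iff.1 hn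
  simp only
  rw [Nat.odd_iff]
  constructor <;> omega

lemma BS_good {k N : ℕ} (hk : Even k) (hk2 : 2 ≤ k) : ∀ p ∈ FS k N, p ∉ ({k + 1} : Finset ℕ) →
    Odd (p - k) ∧ 3 ≤ p - k := by
  intro p hp hpB
  rw [FS, mem_filter, mem_Ioc] at hp
  rw [mem_singleton] at hpB
  have o1 := Nat.odd_iff.1 (hp.2.odd_of_ne_two (by omega))
  have o2 := Nat.even_iff.1 hk
  rw [Nat.odd_iff]
  constructor <;> omega

lemma BO_good {n : ℕ} (hn : Even n) : ∀ p ∈ FO n, p ∉ ({2, n - 1} : Finset ℕ) →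
    Odd (n - p) ∧ 3 ≤ n - p := by
  intro p hp hpB
  rw [FO, mem_filter, mem_range] at hp
  rw [mem_insert, mem_singleton, not_or] at hpB
  have o1 := Nat.odd_iff.1 (hp.2.odd_of_ne_two (by omega))
  have o2 := Nat.even_iff.1 hn
  rw [Nat.odd_iff]
  constructor <;> omega

/-- the event -/
def Ev (q : ℕ) (b : ℤ) (x : ℝ) (m : ℕ) : Prop := ∃ h : ℕ, IsHt m h ∧ (h : ℝ) ≤ bo x (Real.log m) ∧ (h : ℤ) ≡ b [ZMOD q]

/-- the event for the number of odd terms -/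
def Wv (q : ℕ) (b : ℤ) (x : ℝ) (z : ℤ) : Prop := 0 < z ∧ ∃ k : ℕ, (odn k z.toNat : ℝ) ≤ bo x (Real.log z.toNat) ∧
  H k z.toNat ∧ (odn k z.toNat : ℤ) ≡ b [ZMOD q]

lemma Ev_iff (q : ℕ) (b : ℤ) (x : ℝ) (m : ℕ) (hm : Odd m) (h3 : 3 ≤ m) : Ev q b x m ↔ Wv q b x (m : ℤ) := by
  unfold Ev Wv
  rw [Int.toNat_natCast]
  constructor
  · rintro ⟨h, hh, h1, h2⟩
    obtain ⟨k, hk, rfl⟩ := (ht_H (Nat.odd_iff.1 hm) (by omega) h).1 hh
    exact ⟨by omega, k, h1, hk, h2⟩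
  · rintro ⟨_, k, h1, hk, h2⟩
    exact ⟨odn k m, (ht_H (Nat.odd_iff.1 hm) (by omega) _).2 ⟨k, hk, rfl⟩, h1, h2⟩

lemma dat_iff (R : ℕ → Prop) (m : ℕ) (hm : Odd m) (h3 : 3 ≤ m) :
    Dat (fun _ o => R o) (m : ℤ) ↔ ∃ h : ℕ, IsHt m h ∧ R h := by
  unfold Dat
  rw [Int.toNat_natCast]
  constructor
  · rintro ⟨_, k, hk, hR⟩
    exact ⟨odn k m, (ht_H (Nat.odd_iff.1 hm) (by omega) _).2 ⟨k, hk, rfl⟩, hR⟩
  · rintro ⟨h, hh, hR⟩
    obtain ⟨k, hk, rfl⟩ := (ht_H (Nat.odd_iff.1 hm) (by omega) h).1 hh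
    exact ⟨by omega, k, hk, hR⟩

/-- `f t m` is the height of `m`, truncated at `t` -/
def IsTr (f : ℝ → ℕ → ℝ) : Prop := (∀ t m h, IsHt m h → f t m = min (h : ℝ) t) ∧
  ∀ t m, (¬ ∃ h, IsHt m h) → f t m = t

lemma IsTr.nn {f : ℝ → ℕ → ℝ} (hf : IsTr f) {t : ℝ} (ht : 0 ≤ t) (m : ℕ) : 0 ≤ f t m ∧ f t m ≤ t := by
  by_cases h : ∃ h, IsHt m h
  · obtain ⟨h, hh⟩ := h
    rw [hf.1 t m h hh]
    exact ⟨le_min (Nat.cast_nonneg _) ht, min_le_right _ _⟩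
  · rw [hf.2 t m h]
    exact ⟨ht, le_rfl⟩

open Classical in
theorem avg_core {α : Type*} (F B : Finset α) (v : α → ℕ) (hB : ∀ z ∈ F, z ∉ B → Odd (v z) ∧ 3 ≤ v z)
    {f : ℝ → ℕ → ℝ} (hf : IsTr f) {c κ Λ L L' : ℝ} (hκ : 0 < κ) (hκc : κ < c) (hΛ : c < Λ)
    (hL : 0 ≤ L) (hLL : L ≤ L') (hLL' : L' ≤ L + 1) :
    ∑ z ∈ F.filter (fun z => Odd (v z)), f (Λ * L) (v z) ≤ Λ * L * ((F.card : ℝ) -
      (F.filter (fun z => Dat (fun _ o => (o : ℝ) ≤ (c + κ) * L') ((v z : ℕ) : ℤ))).card) +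
      (c + κ) * (L + 1) * (F.filter (fun z => Dat (fun _ o => (o : ℝ) ≤ (c + κ) * L') ((v z : ℕ) : ℤ))).card +
      B.card * (Λ * L) ∧
    Λ * L * ((F.card : ℝ) - (F.filter (fun z => Dat (fun _ _ => True) ((v z : ℕ) : ℤ))).card) +
      (c - κ) * L * (F.filter (fun z => Dat (fun _ o => (c - κ) * L' < (o : ℝ)) ((v z : ℕ) : ℤ))).card -
      B.card * (Λ * L + (c - κ) * L) ≤ ∑ z ∈ F.filter (fun z => Odd (v z)), f (Λ * L) (v z) := by
  have hΛ0 : 0 < Λ := by linarith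
  have ht : 0 ≤ Λ * L := by positivity
  have hck : 0 < c - κ := by linarith
  refine trunc_bounds F (F.filter (fun z => Odd (v z))) B (filter_subset _ _)
    (fun z hz hzB => mem_filter.2 ⟨hz, (hB z hz hzB).1⟩) (fun z => f (Λ * L) (v z))
    (fun z => Dat (fun _ _ => True) ((v z : ℕ) : ℤ))
    (fun z => Dat (fun _ o => (c - κ) * L' < (o : ℝ)) ((v z : ℕ) : ℤ))
    (fun z => Dat (fun _ o => (o : ℝ) ≤ (c + κ) * L') ((v z : ℕ) : ℤ)) ht (by positivity)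
    (mul_nonneg (by linarith) (by linarith)) (fun z _ => (hf.nn ht _).1) (fun z _ => (hf.nn ht _).2) ?_ ?_ ?_ ?_
  · intro z hz hzB h0
    obtain ⟨g1, g2⟩ := hB z (mem_filter.1 hz).1 hzB
    apply hf.2
    rintro ⟨h, hh⟩
    exact h0 ((dat_iff (fun _ => True) (v z) g1 g2).2 ⟨h, hh, trivial⟩)
  · rintro z ⟨hz, k, hk, _⟩
    exact ⟨hz, k, hk, trivial⟩
  · intro z hz hzB h1
    obtain ⟨g1, g2⟩ := hB z (mem_filter.1 hz).1 hzB
    obtain ⟨h, hh, hl⟩ := (dat_iff (fun o => (c - κ) * L' < (o : ℝ)) (v z) g1 g2).1 h1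
    rw [hf.1 _ _ h hh]
    refine le_min ?_ ?_
    · have := mul_le_mul_of_nonneg_left hLL hck.le
      linarith
    · exact mul_le_mul_of_nonneg_right (by linarith) hL
  · intro z hz hzB h2
    obtain ⟨g1, g2⟩ := hB z (mem_filter.1 hz).1 hzB
    obtain ⟨h, hh, hl⟩ := (dat_iff (fun o => (o : ℝ) ≤ (c + κ) * L') (v z) g1 g2).1 h2
    rw [hf.1 _ _ h hh]
    refine (min_le_left _ _).trans (hl.trans ?_)
    exact mul_le_mul_of_nonneg_left hLL' (by linarith)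

/-- the hypotheses on the density -/
structure Den (δ : ℝ) : Prop where
  pos : 0 < δ
  le_one : δ ≤ 1
  fin : Dn (fun n => ∃ k, H k n) δ
  law : ∀ (q : ℕ) (b : ℤ), 1 ≤ q → ∀ x : ℝ, Dn (fun n => ∃ k : ℕ, (odn k n : ℝ) ≤ bo x (Real.log n) ∧ H k n ∧
      (odn k n : ℤ) ≡ b [ZMOD q]) (δ / q * Phi x)

lemma Den.law1 {δ : ℝ} (h : Den δ) : Law1 δ := by
  intro x
  have h1 := h.law 1 0 le_rfl x
  simp only [Nat.cast_one, div_one] at h1
  refine Pool.Agent.H499R2.LT.Dn_iff (fun n _ => ?_) h1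
  constructor
  · rintro ⟨k, hk, hk', _⟩; exact ⟨k, hk, hk'⟩
  · rintro ⟨k, hk, hk'⟩
    refine ⟨k, hk, hk', ?_⟩
    rw [Int.ModEq]
    simp

/-- powers of logarithms are negligible -/
lemma ev_small (κ : ℝ) (hκ : 0 < κ) : ∀ᶠ N : ℕ in atTop, 8 * Real.log (N : ℝ) ^ 2 ≤ κ * N := by
  have h1 : (fun x : ℝ => Real.log x ^ 2) =o[atTop] (fun x : ℝ => x) := Real.isLittleO_pow_log_id_atTop
  have h2 := (h1.bound (show 0 < κ / 8 by positivity))
  have h3 := tendsto_natCast_atTop_atTop.eventually h2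
  filter_upwards [h3] with N hN
  rw [Real.norm_of_nonneg (by positivity), Real.norm_of_nonneg (Nat.cast_nonneg _)] at hN
  linarith

/-- LAW, ternary -/
theorem law_tern {δ : ℝ} (hδ : Den δ) {q : ℕ} (hq : 1 ≤ q) (b : ℤ) (x ε : ℝ) (hε : 0 < ε) :
    ∀ᶠ n : ℕ in atTop, Odd n → |({z : ℕ × ℕ | z ∈ FP n ∧ Odd (n - z.1 - z.2) ∧ Ev q b x (n - z.1 - z.2)}.ncard : ℝ) *
      Real.log n ^ 2 - δ / q * Phi x * (n ^ 2 / 2)| ≤ ε * n ^ 2 := by
  classical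
  have hA := App_law (q := q) (b := b) (hδ.law q b hq) x
  filter_upwards [hA.tern (ε / 2) (by positivity), ev_small (ε / 2) (by positivity), eventually_ge_atTop 1]
    with n h1 h2 h3 hn
  have hn1 : (1 : ℝ) ≤ n := by exact_mod_cast h3
  rw [TT3_card] at h1
  have e : {z : ℕ × ℕ | z ∈ FP n ∧ Odd (n - z.1 - z.2) ∧ Ev q b x (n - z.1 - z.2)} =
      (((FP n).filter (fun z => Odd (n - z.1 - z.2) ∧ Ev q b x (n - z.1 - z.2)) : Finset (ℕ × ℕ)) : Set (ℕ × ℕ)) := by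
    ext z
    rw [mem_coe, mem_filter]; rfl
  rw [e, Set.ncard_coe_finset]
  have k := law_close (FP n) (BP n) (fun z => n - z.1 - z.2) (BP_good hn) (Ev q b x)
    (fun m => Wv q b x (m : ℤ)) (Ev_iff q b x)
  have hBc := BP_card n
  set T := (((FP n).filter (fun z => Wv q b x ((n - z.1 - z.2 : ℕ) : ℤ))).card : ℝ) with hT
  set U := (((FP n).filter (fun z => Odd (n - z.1 - z.2) ∧ Ev q b x (n - z.1 - z.2))).card : ℝ) with hU
  have h1' : |T * Real.log n ^ 2 - δ / q * Phi x * n ^ 2 / 2| ≤ ε / 2 * n ^ 2 := h1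
  have k' : |U - T| ≤ 3 * n := k.trans hBc
  rw [abs_le] at h1' k' ⊢
  have hl : 0 ≤ Real.log (n : ℝ) ^ 2 := by positivity
  have k1 := mul_le_mul_of_nonneg_right k'.1 hl
  have k2 := mul_le_mul_of_nonneg_right k'.2 hl
  have h2' : 3 * n * Real.log (n : ℝ) ^ 2 ≤ ε / 2 * n ^ 2 := by nlinarith
  constructor <;> nlinarith [h1'.1, h1'.2]

/-- LAW, shifts -/
theorem law_diff {δ : ℝ} (hδ : Den δ) {q : ℕ} (hq : 1 ≤ q) (b : ℤ) (x : ℝ) (C : ℕ) (ε : ℝ) (hε : 0 < ε) :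
    ∀ᶠ N : ℕ in atTop, ∃ X : Finset ℕ, (X.card : ℝ) * Real.log N ^ C ≤ N ∧ ∀ k ∈ Icc 1 N, Even k → k ∉ X →
      |({p : ℕ | p ∈ FS k N ∧ Odd (p - k) ∧ Ev q b x (p - k)}.ncard : ℝ) * Real.log N -
        δ / q * Phi x * N| ≤ ε * N := by
  classical
  have hA := App_law (q := q) (b := b) (hδ.law q b hq) x
  filter_upwards [hA.diff C (ε / 2) (by positivity), ev_small (ε / 2) (by positivity), eventually_ge_atTop 1,
    tlog.eventually_ge_atTop 1] with N h1 h2 h3 h4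
  obtain ⟨X, hX1, hX2, hX3⟩ := h1
  refine ⟨X, hX2, fun k hk hke hkX => ?_⟩
  have hn1 : (1 : ℝ) ≤ N := by exact_mod_cast h3
  have h1 := hX3 k hk hkX
  rw [QD_card] at h1
  have e : {p : ℕ | p ∈ FS k N ∧ Odd (p - k) ∧ Ev q b x (p - k)} =
      (((FS k N).filter (fun p => Odd (p - k) ∧ Ev q b x (p - k)) : Finset ℕ) : Set ℕ) := by
    ext z
    rw [mem_coe, mem_filter]; rfl
  rw [e, Set.ncard_coe_finset]
  rw [mem_Icc] at hk
  have hk2 : 2 ≤ k := by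
    obtain ⟨j, hj⟩ := hke
    omega
  have k0 := law_close (FS k N) {k + 1} (fun p => p - k) (BS_good hke hk2) (Ev q b x)
    (fun m => Wv q b x (m : ℤ)) (Ev_iff q b x)
  rw [card_singleton, Nat.cast_one] at k0
  set T := (((FS k N).filter (fun p => Wv q b x ((p - k : ℕ) : ℤ))).card : ℝ) with hT
  set U := (((FS k N).filter (fun p => Odd (p - k) ∧ Ev q b x (p - k))).card : ℝ) with hU
  have h1' : |T * Real.log N - δ / q * Phi x * N| ≤ ε / 2 * N := h1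
  have k' : |U - T| ≤ 1 := k0
  rw [abs_le] at h1' k' ⊢
  have hl : 0 ≤ Real.log (N : ℝ) := by linarith
  have k1 := mul_le_mul_of_nonneg_right k'.1 hl
  have k2 := mul_le_mul_of_nonneg_right k'.2 hl
  have h2' : Real.log (N : ℝ) ≤ ε / 2 * N := by nlinarith
  constructor <;> nlinarith [h1'.1, h1'.2]

/-- LAW, sums -/
theorem law_sum {δ : ℝ} (hδ : Den δ) {q : ℕ} (hq : 1 ≤ q) (b : ℤ) (x : ℝ) (C : ℕ) (ε : ℝ) (hε : 0 < ε) :
    ∀ᶠ N : ℕ in atTop, ∃ X : Finset ℕ, (X.card : ℝ) * Real.log N ^ C ≤ N ∧ ∀ n ∈ Ioc N (2 * N), Even n → n ∉ X →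
      |({p : ℕ | p ∈ FO n ∧ Odd (n - p) ∧ Ev q b x (n - p)}.ncard : ℝ) * Real.log n -
        δ / q * Phi x * n| ≤ ε * n := by
  classical
  have hA := App_law (q := q) (b := b) (hδ.law q b hq) x
  obtain ⟨N1, hN1⟩ := eventually_atTop.1 (ev_small (ε / 2) (by positivity))
  obtain ⟨N2, hN2⟩ := eventually_atTop.1 (tlog.eventually_ge_atTop 1)
  filter_upwards [hA.sum C (ε / 2) (by positivity), eventually_ge_atTop N1, eventually_ge_atTop N2,
    eventually_ge_atTop 1] with N h1 h2 h4 h3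
  obtain ⟨X, hX1, hX2, hX3⟩ := h1
  refine ⟨X, hX2, fun n hn hke hkX => ?_⟩
  have h1 := hX3 n hn hkX
  rw [mem_Ioc] at hn
  have h2 := hN1 n (by omega)
  have h4 := hN2 n (by omega)
  have hn1 : (1 : ℝ) ≤ n := by exact_mod_cast (by omega : 1 ≤ n)
  rw [QS_card] at h1
  have e : {p : ℕ | p ∈ FO n ∧ Odd (n - p) ∧ Ev q b x (n - p)} =
      (((FO n).filter (fun p => Odd (n - p) ∧ Ev q b x (n - p)) : Finset ℕ) : Set ℕ) := by
    ext z
    rw [mem_coe, mem_filter]; rfl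
  rw [e, Set.ncard_coe_finset]
  have k0 := law_close (FO n) {2, n - 1} (fun p => n - p) (BO_good hke) (Ev q b x)
    (fun m => Wv q b x (m : ℤ)) (Ev_iff q b x)
  have hc2 : ((({2, n - 1} : Finset ℕ).card : ℕ) : ℝ) ≤ 2 := by
    exact_mod_cast card_le_two
  set T := (((FO n).filter (fun p => Wv q b x ((n - p : ℕ) : ℤ))).card : ℝ) with hT
  set U := (((FO n).filter (fun p => Odd (n - p) ∧ Ev q b x (n - p))).card : ℝ) with hU
  have h1' : |T * Real.log n - δ / q * Phi x * n| ≤ ε / 2 * n := h1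
  have k' : |U - T| ≤ 2 := k0.trans hc2
  rw [abs_le] at h1' k' ⊢
  have hl : 0 ≤ Real.log (n : ℝ) := by linarith
  have k1 := mul_le_mul_of_nonneg_right k'.1 hl
  have k2 := mul_le_mul_of_nonneg_right k'.2 hl
  have h2' : 2 * Real.log (n : ℝ) ≤ ε / 2 * n := by nlinarith
  constructor <;> nlinarith [h1'.1, h1'.2]

end Pool.Agent.TH465.HP
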