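import Mathlib
import Pool.Agent.TH465.HP.Main

/-! Truncated averages of the heights along sums with primes. -/

set_option autoImplicit false

namespace Pool.Agent.TH465.HP
open Finset Filter Topology Pool.Agent.TH204.CP
open Pool.Agent.H499R2.HL (H bo bo_theta rr rr_pos nu nu_pos sqrt_rr sqrt_add ht_H)
open Pool.Agent.H499R2.LT (odn)
open Pool.Agent.H499R2.ND (Tn Dn Phi Phi_continuous phi_cdf IsHt)

lemma log_two_mul {N : ℕ} (hN : 1 ≤ N) : Real.log (N : ℝ) ≤ Real.log ((2 * N : ℕ) : ℝ) ∧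
    Real.log ((2 * N : ℕ) : ℝ) ≤ Real.log N + 1 := by
  have hNr : (1 : ℝ) ≤ N := by exact_mod_cast hN
  have e : Real.log ((2 * N : ℕ) : ℝ) = Real.log 2 + Real.log N := by
    push_cast
    rw [Real.log_mul (by norm_num) (by linarith)]
  have h1 := Real.log_two_lt_d9
  have h2 : 0 < Real.log 2 := Real.log_pos (by norm_num)
  rw [e]
  constructor <;> linarith

lemma FP_true (n : ℕ) : ((FP n).card : ℝ) = TT3 (fun _ => True) n := by
  classical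
  rw [TT3_card]
  simp only [Finset.filter_true]

lemma FS_true (k N : ℕ) : ((FS k N).card : ℝ) = QD (fun _ => True) (k : ℤ) N := by
  classical
  rw [QD_card]
  simp only [Finset.filter_true]

lemma FO_true (n : ℕ) : ((FO n).card : ℝ) = QS (fun _ => True) n n := by
  classical
  rw [QS_card]
  simp only [Finset.filter_true]

/-- AVERAGE, ternary -/
theorem avg_tern {δ : ℝ} (hδ : Den δ) {f : ℝ → ℕ → ℝ} (hf : IsTr f) {Λ : ℝ} (hΛ : 1 / nu < Λ) (ε : ℝ) (hε : 0 < ε) :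
    ∀ᶠ n : ℕ in atTop, Odd n → |(∑ z ∈ (FP n).filter (fun z => Odd (n - z.1 - z.2)),
      f (Λ * Real.log n) (n - z.1 - z.2)) * Real.log n - (δ * (1 / nu) + (1 - δ) * Λ) * (n ^ 2 / 2)| ≤ ε * n ^ 2 := by
  classical
  have hc : 0 < 1 / nu := one_div_pos.2 nu_pos
  obtain ⟨κ, hκ0, hκc, hκ⟩ := avg_bound hc hΛ hδ.pos.le hδ.le_one hε
  have a0 := App_fin hδ.fin
  have a1 := App_low hδ.fin hδ.law1 (show 1 / nu - κ < 1 / nu by linarith)
  have a2 := App_upp hδ.fin hδ.law1 (show 1 / nu < 1 / nu + κ by linarith)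
  have hκ2 : 0 < κ / 2 := by positivity
  filter_upwards [App_true.tern (κ / 2) hκ2, a0.tern (κ / 2) hκ2, a1.tern (κ / 2) hκ2, a2.tern (κ / 2) hκ2,
    ev_small κ hκ0, tlog.eventually_ge_atTop (1 / κ), tlog.eventually_ge_atTop 1, eventually_ge_atTop 1]
    with n g g0 g1 g2 h1 h2 h3 h4 hn
  have hn1 : (1 : ℝ) ≤ n := by exact_mod_cast h4
  obtain ⟨l1, l2⟩ := log_two_mul h4
  have hB := BP_good hn
  obtain ⟨b1, b2⟩ := avg_core (FP n) (BP n) (fun z => n - z.1 - z.2) hB hf hκ0 hκc hΛ (by linarith) l1 l2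
  rw [← FP_true] at g
  rw [TT3_card] at g0 g1 g2
  set L := Real.log (n : ℝ) with hL
  set S := ∑ z ∈ (FP n).filter (fun z => Odd (n - z.1 - z.2)), f (Λ * L) (n - z.1 - z.2) with hS
  set A : ℝ := (n : ℝ) ^ 2 / 2 with hA
  have hA0 : 0 ≤ A := by positivity
  have key := hκ L (L ^ 2) A ((FP n).card : ℝ) _ _ _ S ((BP n).card : ℝ) h2 (by positivity) hA0
    ?_ ?_ ?_ ?_ ?_ b1 b2
  · have e1 : S * L ^ 2 - (δ * (1 / nu) + (1 - δ) * Λ) * A * L = (S * L - (δ * (1 / nu) + (1 - δ) * Λ) * A) * L := by ring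
    rw [e1, abs_mul, abs_of_pos (show 0 < L by linarith)] at key
    have key2 := le_of_mul_le_mul_right key (show 0 < L by linarith)
    refine key2.trans ?_
    rw [hA]
    have : 0 ≤ ε * (n : ℝ) ^ 2 := by positivity
    linarith
  · have := g
    rw [one_mul] at this
    refine this.trans (le_of_eq ?_)
    rw [hA]; ring
  · have e2 : δ * (n : ℝ) ^ 2 / 2 = δ * A := by rw [hA]; ring
    rw [e2] at g0
    refine g0.trans (le_of_eq ?_)
    rw [hA]; ring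
  · have e2 : δ * (n : ℝ) ^ 2 / 2 = δ * A := by rw [hA]; ring
    rw [e2] at g1
    refine g1.trans (le_of_eq ?_)
    rw [hA]; ring
  · have e2 : δ * (n : ℝ) ^ 2 / 2 = δ * A := by rw [hA]; ring
    rw [e2] at g2
    refine g2.trans (le_of_eq ?_)
    rw [hA]; ring
  · have h5 : ((BP n).card : ℝ) * L ^ 2 ≤ 3 * n * L ^ 2 := mul_le_mul_of_nonneg_right (BP_card n) (by positivity)
    rw [hA]
    nlinarith

lemma union4 {X0 X1 X2 X3 : Finset ℕ} {N C : ℕ} (h0 : (X0.card : ℝ) * Real.log N ^ (C + 1 + 1) ≤ N)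
    (h1 : (X1.card : ℝ) * Real.log N ^ (C + 1 + 1) ≤ N) (h2 : (X2.card : ℝ) * Real.log N ^ (C + 1 + 1) ≤ N)
    (h3 : (X3.card : ℝ) * Real.log N ^ (C + 1 + 1) ≤ N) (hl : 2 ≤ Real.log (N : ℝ)) :
    (((X0 ∪ X1) ∪ (X2 ∪ X3)).card : ℝ) * Real.log N ^ C ≤ N :=
  union_small (union_small h0 h1 hl) (union_small h2 h3 hl) hl

/-- AVERAGE, shifts -/
theorem avg_diff {δ : ℝ} (hδ : Den δ) {f : ℝ → ℕ → ℝ} (hf : IsTr f) {Λ : ℝ} (hΛ : 1 / nu < Λ) (C : ℕ) (ε : ℝ) (hε : 0 < ε) :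
    ∀ᶠ N : ℕ in atTop, ∃ X : Finset ℕ, (X.card : ℝ) * Real.log N ^ C ≤ N ∧ ∀ k ∈ Icc 1 N, Even k → k ∉ X →
      |∑ p ∈ (FS k N).filter (fun p => Odd (p - k)), f (Λ * Real.log N) (p - k) -
        (δ * (1 / nu) + (1 - δ) * Λ) * N| ≤ ε * N := by
  classical
  have hc : 0 < 1 / nu := one_div_pos.2 nu_pos
  obtain ⟨κ, hκ0, hκc, hκ⟩ := avg_bound hc hΛ hδ.pos.le hδ.le_one hε
  have a0 := App_fin hδ.fin
  have a1 := App_low hδ.fin hδ.law1 (show 1 / nu - κ < 1 / nu by linarith)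
  have a2 := App_upp hδ.fin hδ.law1 (show 1 / nu < 1 / nu + κ by linarith)
  filter_upwards [App_true.diff (C + 1 + 1) κ hκ0, a0.diff (C + 1 + 1) κ hκ0, a1.diff (C + 1 + 1) κ hκ0,
    a2.diff (C + 1 + 1) κ hκ0,
    ev_small κ hκ0, tlog.eventually_ge_atTop (1 / κ), tlog.eventually_ge_atTop 2, eventually_ge_atTop 1]
    with N g g0 g1 g2 h1 h2 h3 h4
  obtain ⟨X0, _, x0, y0⟩ := g
  obtain ⟨X1, _, x1, y1⟩ := g0
  obtain ⟨X2, _, x2, y2⟩ := g1
  obtain ⟨X3, _, x3, y3⟩ := g2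
  refine ⟨(X0 ∪ X1) ∪ (X2 ∪ X3), union4 x0 x1 x2 x3 h3, fun k hk hke hkX => ?_⟩
  rw [mem_union, mem_union, mem_union, not_or, not_or, not_or] at hkX
  obtain ⟨⟨n0, n1⟩, n2, n3⟩ := hkX
  have z0 := y0 k hk n0
  have z1 := y1 k hk n1
  have z2 := y2 k hk n2
  have z3 := y3 k hk n3
  rw [mem_Icc] at hk
  have hk2 : 2 ≤ k := by
    obtain ⟨j, hj⟩ := hke
    omega
  have hn1 : (1 : ℝ) ≤ N := by exact_mod_cast h4
  obtain ⟨b1, b2⟩ := avg_core (FS k N) {k + 1} (fun p => p - k) (BS_good hke hk2) hf hκ0 hκc hΛ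
    (L := Real.log N) (L' := Real.log N) (by linarith) le_rfl (by linarith)
  rw [← FS_true] at z0
  rw [QD_card] at z1 z2 z3
  set L := Real.log (N : ℝ) with hL
  set S := ∑ p ∈ (FS k N).filter (fun p => Odd (p - k)), f (Λ * L) (p - k) with hS
  have key := hκ L L (N : ℝ) ((FS k N).card : ℝ) _ _ _ S ((({k + 1} : Finset ℕ).card : ℕ) : ℝ) h2 (by linarith)
    (by linarith) ?_ z1 z2 z3 ?_ b1 b2
  · have e1 : S * L - (δ * (1 / nu) + (1 - δ) * Λ) * N * L = (S - (δ * (1 / nu) + (1 - δ) * Λ) * N) * L := by ring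
    rw [e1, abs_mul, abs_of_pos (show 0 < L by linarith)] at key
    exact le_of_mul_le_mul_right key (show 0 < L by linarith)
  · have := z0
    rw [one_mul] at this
    exact this
  · rw [card_singleton, Nat.cast_one, one_mul]
    nlinarith

/-- AVERAGE, sums -/
theorem avg_sum {δ : ℝ} (hδ : Den δ) {f : ℝ → ℕ → ℝ} (hf : IsTr f) {Λ : ℝ} (hΛ : 1 / nu < Λ) (C : ℕ) (ε : ℝ) (hε : 0 < ε) :
    ∀ᶠ N : ℕ in atTop, ∃ X : Finset ℕ, (X.card : ℝ) * Real.log N ^ C ≤ N ∧ ∀ n ∈ Ioc N (2 * N), Even n → n ∉ X →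
      |∑ p ∈ (FO n).filter (fun p => Odd (n - p)), f (Λ * Real.log n) (n - p) -
        (δ * (1 / nu) + (1 - δ) * Λ) * n| ≤ ε * n := by
  classical
  have hc : 0 < 1 / nu := one_div_pos.2 nu_pos
  obtain ⟨κ, hκ0, hκc, hκ⟩ := avg_bound hc hΛ hδ.pos.le hδ.le_one hε
  have a0 := App_fin hδ.fin
  have a1 := App_low hδ.fin hδ.law1 (show 1 / nu - κ < 1 / nu by linarith)
  have a2 := App_upp hδ.fin hδ.law1 (show 1 / nu < 1 / nu + κ by linarith)
  obtain ⟨N1, hN1⟩ := eventually_atTop.1 (ev_small κ hκ0)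
  obtain ⟨N2, hN2⟩ := eventually_atTop.1 (tlog.eventually_ge_atTop (1 / κ))
  filter_upwards [App_true.sum (C + 1 + 1) κ hκ0, a0.sum (C + 1 + 1) κ hκ0, a1.sum (C + 1 + 1) κ hκ0,
    a2.sum (C + 1 + 1) κ hκ0, eventually_ge_atTop N1, eventually_ge_atTop N2,
    tlog.eventually_ge_atTop 2, eventually_ge_atTop 1]
    with N g g0 g1 g2 h1 h2 h3 h4
  obtain ⟨X0, _, x0, y0⟩ := g
  obtain ⟨X1, _, x1, y1⟩ := g0
  obtain ⟨X2, _, x2, y2⟩ := g1
  obtain ⟨X3, _, x3, y3⟩ := g2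
  refine ⟨(X0 ∪ X1) ∪ (X2 ∪ X3), union4 x0 x1 x2 x3 h3, fun n hn hke hkX => ?_⟩
  rw [mem_union, mem_union, mem_union, not_or, not_or, not_or] at hkX
  obtain ⟨⟨n0, n1⟩, n2, n3⟩ := hkX
  have z0 := y0 n hn n0
  have z1 := y1 n hn n1
  have z2 := y2 n hn n2
  have z3 := y3 n hn n3
  rw [mem_Ioc] at hn
  have h1' := hN1 n (by omega)
  have h2' := hN2 n (by omega)
  have hn1 : (1 : ℝ) ≤ n := by exact_mod_cast (by omega : 1 ≤ n)
  have hNr : (1 : ℝ) ≤ N := by exact_mod_cast h4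
  obtain ⟨l1, l2⟩ := log_two_mul h4
  have hNn : Real.log (N : ℝ) ≤ Real.log n := Real.log_le_log (by linarith) (by exact_mod_cast hn.1.le)
  have hn2N : Real.log (n : ℝ) ≤ Real.log ((2 * N : ℕ) : ℝ) := Real.log_le_log (by linarith) (by exact_mod_cast hn.2)
  obtain ⟨b1, b2⟩ := avg_core (FO n) {2, n - 1} (fun p => n - p) (BO_good hke) hf hκ0 hκc hΛ
    (L := Real.log n) (L' := Real.log ((2 * N : ℕ) : ℝ)) (by linarith) hn2N (by linarith)
  rw [← FO_true] at z0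
  rw [QS_card] at z1 z2 z3
  set L := Real.log (n : ℝ) with hL
  set S := ∑ p ∈ (FO n).filter (fun p => Odd (n - p)), f (Λ * L) (n - p) with hS
  have hL2 : 2 ≤ L := by linarith
  have key := hκ L L (n : ℝ) ((FO n).card : ℝ) _ _ _ S ((({2, n - 1} : Finset ℕ).card : ℕ) : ℝ) h2' (by linarith)
    (by linarith) ?_ z1 z2 z3 ?_ b1 b2
  · have e1 : S * L - (δ * (1 / nu) + (1 - δ) * Λ) * n * L = (S - (δ * (1 / nu) + (1 - δ) * Λ) * n) * L := by ring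
    rw [e1, abs_mul, abs_of_pos (show 0 < L by linarith)] at key
    exact le_of_mul_le_mul_right key (show 0 < L by linarith)
  · have := z0
    rw [one_mul] at this
    exact this
  · have hc2 : ((({2, n - 1} : Finset ℕ).card : ℕ) : ℝ) ≤ 2 := by exact_mod_cast card_le_two
    have h5 : ((({2, n - 1} : Finset ℕ).card : ℕ) : ℝ) * L ≤ 2 * L := mul_le_mul_of_nonneg_right hc2 (by linarith)
    nlinarith

/-- the density -/
theorem den : ∃ δ : ℝ, Den δ ∧ (δ = 1 ↔ ∀ m : ℕ, Odd m → ∃ h, IsHt m h) ∧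
    Dn (fun n => n % 2 = 1 ∧ ∃ h : ℕ, IsHt n h) (δ / 2) := by
  obtain ⟨δ, h0, h1, h2, h3, h4⟩ := Pool.Agent.H499R2.HL.law_k
  obtain ⟨δ', h0', h1', h2', h3', _⟩ := Pool.Agent.H499R2.HL.law_ht
  have hB : Dn (fun n => ∃ k : ℕ, H k n) δ := by
    refine Pool.Agent.H499R2.LT.Dn_iff (fun n _ => ?_) h3
    constructor
    · intro h
      classical
      exact ⟨Nat.find h, Nat.find_spec h, fun i hi => Nat.find_min h hi⟩
    · rintro ⟨k, hk⟩; exact ⟨k, hk.1⟩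
  have hodd : Dn (fun n => n % 2 = 1 ∧ ∃ k : ℕ, H k n) (δ / 2) :=
    Pool.Agent.H499R2.HL.dn_odd hB (Pool.Agent.H499R2.LT.Dn_iff (fun n _ =>
      ⟨fun ⟨k, hk⟩ => ⟨k + 1, Pool.Agent.H499R2.HL.H_two hk⟩, fun ⟨k, hk⟩ => by
        obtain ⟨k', _, h'⟩ := Pool.Agent.H499R2.HL.H_of_two hk
        exact ⟨k', h'⟩⟩) hB)
  have hodd' : Dn (fun n => n % 2 = 1 ∧ ∃ k : ℕ, H k n) (δ' / 2) := by
    refine Pool.Agent.H499R2.ND.dn_congr h3' (Pool.Agent.H499R2.ND.zd_bdd 1) fun n hn hE => ?_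
    have hn1 : n ≠ 1 := by
      rintro rfl
      exact hE (by norm_num)
    refine and_congr_right fun ho => ?_
    constructor
    · rintro ⟨h, hh⟩
      obtain ⟨k, hk, _⟩ := (ht_H ho hn1 h).1 hh
      exact ⟨k, hk⟩
    · rintro ⟨k, hk⟩
      exact ⟨_, (ht_H ho hn1 _).2 ⟨k, hk, rfl⟩⟩
  have hδ : δ = δ' := by
    have := tendsto_nhds_unique hodd hodd'
    linarith
  refine ⟨δ, ⟨h0, h1, hB, fun q b hq x => Pool.Agent.H499R2.HL.law_o (h4 q b hq).2 x⟩, ?_, ?_⟩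
  · rw [hδ]; exact h2'
  · rw [hδ]; exact h3'

end Pool.Agent.TH465.HP
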